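import Pool.Agent.N490.QD.Stm

/-!
# Project QD (helper490): leaf CAPS, by helper505. The area of a square with four caps
-/

set_option autoImplicit false

open MeasureTheory

namespace Pool.Agent.N490.QD.CAPS

theorem line_null (u v w : ℝ) (h : u ≠ 0 ∨ v ≠ 0) :
    volume {x : P | u * x.1 + v * x.2 = w} = 0 := by
  let s : AffineSubspace ℝ P :=
    { carrier := {x : P | u * x.1 + v * x.2 = w}
      smul_vsub_vadd_mem' := by
        intro c p₁ p₂ p₃ h1 h2 h3
        simp only [Set.mem_ofPred_eq, vsub_eq_sub, vadd_eq_add, Prod.fst_add, Prod.snd_add,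
          Prod.smul_fst, Prod.smul_snd, Prod.fst_sub, Prod.snd_sub, smul_eq_mul] at *
        linear_combination c * h1 - c * h2 + h3 }
  have hs : s ≠ ⊤ := by
    intro htop
    have hm : ∀ x : P, u * x.1 + v * x.2 = w := by
      intro x
      have : x ∈ s := by rw [htop]; exact AffineSubspace.mem_top ℝ P x
      exact this
    have h0 := hm (0, 0)
    have h1 := hm (1, 0)
    have h2 := hm (0, 1)
    simp only [mul_zero, mul_one, add_zero, zero_add] at h0 h1 h2
    rcases h with h | h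
    · exact h (by linarith)
    · exact h (by linarith)
  exact Measure.addHaar_affineSubspace volume s hs

theorem aedisj (u v w : ℝ) (h : u ≠ 0 ∨ v ≠ 0) {S T : Set P}
    (hS : ∀ x ∈ S, u * x.1 + v * x.2 ≤ w) (hT : ∀ x ∈ T, w ≤ u * x.1 + v * x.2) :
    AEDisjoint volume S T := by
  refine measure_mono_null ?_ (line_null u v w h)
  rintro x ⟨h1, h2⟩
  exact le_antisymm (hS x h1) (hT x h2)

theorem hull_le (u v w : ℝ) (a b c : P) (ha : u * a.1 + v * a.2 ≤ w)
    (hb : u * b.1 + v * b.2 ≤ w) (hc : u * c.1 + v * c.2 ≤ w) :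
    ∀ x ∈ convexHull ℝ ({a, b, c} : Set P), u * x.1 + v * x.2 ≤ w := by
  have hconv : Convex ℝ {x : P | u * x.1 + v * x.2 ≤ w} := by
    intro x hx y hy s t hs ht hst
    simp only [Set.mem_ofPred_eq, Prod.fst_add, Prod.snd_add, Prod.smul_fst, Prod.smul_snd,
      smul_eq_mul] at *
    have h1 := mul_le_mul_of_nonneg_left hx hs
    have h2 := mul_le_mul_of_nonneg_left hy ht
    have h3 : s * w + t * w = w := by rw [← add_mul, hst, one_mul]
    nlinarith
  have hsub : ({a, b, c} : Set P) ⊆ {x : P | u * x.1 + v * x.2 ≤ w} := by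
    intro x hx
    simp only [Set.mem_insert_iff, Set.mem_singleton_iff] at hx
    rcases hx with rfl | rfl | rfl
    · exact ha
    · exact hb
    · exact hc
  intro x hx
  exact convexHull_min hsub hconv hx

theorem hull_ge (u v w : ℝ) (a b c : P) (ha : w ≤ u * a.1 + v * a.2)
    (hb : w ≤ u * b.1 + v * b.2) (hc : w ≤ u * c.1 + v * c.2) :
    ∀ x ∈ convexHull ℝ ({a, b, c} : Set P), w ≤ u * x.1 + v * x.2 := by
  intro x hx
  have := hull_le (-u) (-v) (-w) a b c (by linarith) (by linarith) (by linarith) x hx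
  linarith

theorem tri_meas (a b c : P) : NullMeasurableSet (convexHull ℝ ({a, b, c} : Set P)) volume := by
  have h : ({a, b, c} : Set P).Finite := by simp
  exact (h.isCompact_convexHull (𝕜 := ℝ)).isClosed.measurableSet.nullMeasurableSet

theorem tri_sub {K : Set P} (hK : Convex ℝ K) {a b c : P} (ha : a ∈ K) (hb : b ∈ K)
    (hc : c ∈ K) : convexHull ℝ ({a, b, c} : Set P) ⊆ K := by
  refine convexHull_min ?_ hK
  intro x hx
  simp only [Set.mem_insert_iff, Set.mem_singleton_iff] at hx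
  rcases hx with rfl | rfl | rfl
  · exact ha
  · exact hb
  · exact hc

theorem tri_vol (a b c : P) (h : ℝ) (hh : 0 ≤ h)
    (hc : (b.1 - a.1) * (c.2 - a.2) - (b.2 - a.2) * (c.1 - a.1) = 2 * h ∨
      (b.1 - a.1) * (c.2 - a.2) - (b.2 - a.2) * (c.1 - a.1) = -(2 * h)) :
    volume (convexHull ℝ ({a, b, c} : Set P)) = ENNReal.ofReal h := by
  rw [Pool.Agent.Helper484.Crit.FG.volume_triangle]
  congr 1
  have h1 : Pool.Agent.Helper484.Crit.cr (b - a) (c - a) =
      (b.1 - a.1) * (c.2 - a.2) - (b.2 - a.2) * (c.1 - a.1) := rfl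
  rw [h1]
  rcases hc with hc | hc
  · rw [hc, abs_of_nonneg (by linarith)]; ring
  · rw [hc, abs_neg, abs_of_nonneg (by linarith)]; ring

theorem corner (h k p r : ℝ) (hh : 0 ≤ h) (hk : 0 ≤ k) (hp : p ≤ 1 + k) (hr : r ≤ 1 + h) :
    ∃ Q : ℝ, 0 ≤ Q ∧ h * (p - 1) - Q * h ≤ 0 ∧ 0 ≤ h * k - Q * (r - 1) := by
  refine ⟨max p 1 - 1, by linarith [le_max_right p 1], ?_, ?_⟩
  · nlinarith [le_max_left p 1]
  · have h1 : max p 1 - 1 ≤ k := by
      rcases max_cases p 1 with ⟨h2, _⟩ | ⟨h2, _⟩ <;> rw [h2] <;> linarith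
    have h0 : 0 ≤ max p 1 - 1 := by linarith [le_max_right p 1]
    rcases le_total (r - 1) 0 with h2 | h2
    · nlinarith [mul_nonneg hh hk, mul_nonneg h0 (neg_nonneg.2 h2)]
    · have h3 : (max p 1 - 1) * (r - 1) ≤ k * h := by
        refine mul_le_mul h1 (by linarith) h2 hk
      nlinarith

theorem t_CAPS : S_CAPS := by
  intro K hK hSq h1 h2 h3 h4 q1 q2 q3 q4 h1p h2p h3p h4p a1 a2 a3 a4 a5 a6 a7 a8 m1 m2 m3 m4
  have hsq : ∀ x y : ℝ, -1 ≤ x → x ≤ 1 → -1 ≤ y → y ≤ 1 → ((x, y) : P) ∈ K :=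
    fun x y e1 e2 e3 e4 => hSq ⟨e1, e2, e3, e4⟩
  have k1 : ((-1, 1) : P) ∈ K := hsq _ _ (by norm_num) (by norm_num) (by norm_num) (by norm_num)
  have k2 : ((1, 1) : P) ∈ K := hsq _ _ (by norm_num) (by norm_num) (by norm_num) (by norm_num)
  have k3 : ((1, -1) : P) ∈ K := hsq _ _ (by norm_num) (by norm_num) (by norm_num) (by norm_num)
  have k4 : ((-1, -1) : P) ∈ K := hsq _ _ (by norm_num) (by norm_num) (by norm_num) (by norm_num)
  obtain ⟨T1, hT1⟩ : ∃ T : Set P, T = convexHull ℝ {(-1, 1), (1, 1), (q1, 1 + h1)} := ⟨_, rfl⟩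
  obtain ⟨T2, hT2⟩ : ∃ T : Set P, T = convexHull ℝ {(1, -1), (1, 1), (1 + h2, q2)} := ⟨_, rfl⟩
  obtain ⟨T3, hT3⟩ : ∃ T : Set P, T = convexHull ℝ {(-1, -1), (1, -1), (q3, -1 - h3)} := ⟨_, rfl⟩
  obtain ⟨T4, hT4⟩ : ∃ T : Set P, T = convexHull ℝ {(-1, -1), (-1, 1), (-1 - h4, q4)} := ⟨_, rfl⟩
  have s1 : T1 ⊆ K := by rw [hT1]; exact tri_sub hK k1 k2 m1
  have s2 : T2 ⊆ K := by rw [hT2]; exact tri_sub hK k3 k2 m2
  have s3 : T3 ⊆ K := by rw [hT3]; exact tri_sub hK k4 k3 m3
  have s4 : T4 ⊆ K := by rw [hT4]; exact tri_sub hK k4 k1 m4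
  have v1 : volume T1 = ENNReal.ofReal h1 := by
    rw [hT1]; exact tri_vol _ _ _ _ h1p (Or.inl (by ring))
  have v2 : volume T2 = ENNReal.ofReal h2 := by
    rw [hT2]; exact tri_vol _ _ _ _ h2p (Or.inr (by ring))
  have v3 : volume T3 = ENNReal.ofReal h3 := by
    rw [hT3]; exact tri_vol _ _ _ _ h3p (Or.inr (by ring))
  have v4 : volume T4 = ENNReal.ofReal h4 := by
    rw [hT4]; exact tri_vol _ _ _ _ h4p (Or.inl (by ring))
  have n1 : NullMeasurableSet T1 volume := by rw [hT1]; exact tri_meas _ _ _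
  have n2 : NullMeasurableSet T2 volume := by rw [hT2]; exact tri_meas _ _ _
  have n3 : NullMeasurableSet T3 volume := by rw [hT3]; exact tri_meas _ _ _
  have n4 : NullMeasurableSet T4 volume := by rw [hT4]; exact tri_meas _ _ _
  have v0 : volume Sq = ENNReal.ofReal 4 := by
    have e1 : Sq = Set.Icc (-1 : ℝ) 1 ×ˢ Set.Icc (-1 : ℝ) 1 := by
      ext x
      simp only [Sq, Set.mem_ofPred_eq, Set.mem_prod, Set.mem_Icc]
      tauto
    rw [e1, Measure.volume_eq_prod, Measure.prod_prod, Real.volume_Icc,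
      ← ENNReal.ofReal_mul (by norm_num)]
    norm_num
  -- the ten pairs
  have y1 : ∀ x ∈ T1, 1 ≤ 0 * x.1 + 1 * x.2 := by
    rw [hT1]; exact hull_ge 0 1 1 _ _ _ (by norm_num) (by norm_num) (by simp <;> linarith)
  have y3 : ∀ x ∈ T3, 1 ≤ 0 * x.1 + (-1) * x.2 := by
    rw [hT3]; exact hull_ge 0 (-1) 1 _ _ _ (by norm_num) (by norm_num) (by simp <;> linarith)
  have y2 : ∀ x ∈ T2, 1 ≤ 1 * x.1 + 0 * x.2 := by
    rw [hT2]; exact hull_ge 1 0 1 _ _ _ (by norm_num) (by norm_num) (by simp <;> linarith)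
  have y4 : ∀ x ∈ T4, 1 ≤ (-1) * x.1 + 0 * x.2 := by
    rw [hT4]; exact hull_ge (-1) 0 1 _ _ _ (by norm_num) (by norm_num) (by simp <;> linarith)
  have d01 : AEDisjoint volume Sq T1 := by
    refine aedisj 0 1 1 (Or.inr one_ne_zero) (fun x hx => ?_) y1
    obtain ⟨e1, e2, e3, e4⟩ := hx
    linarith
  have d03 : AEDisjoint volume Sq T3 := by
    refine aedisj 0 (-1) 1 (Or.inr (by norm_num)) (fun x hx => ?_) y3
    obtain ⟨e1, e2, e3, e4⟩ := hx
    linarith
  have d02 : AEDisjoint volume Sq T2 := by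
    refine aedisj 1 0 1 (Or.inl one_ne_zero) (fun x hx => ?_) y2
    obtain ⟨e1, e2, e3, e4⟩ := hx
    linarith
  have d04 : AEDisjoint volume Sq T4 := by
    refine aedisj (-1) 0 1 (Or.inl (by norm_num)) (fun x hx => ?_) y4
    obtain ⟨e1, e2, e3, e4⟩ := hx
    linarith
  have d13 : AEDisjoint volume T1 T3 := by
    refine (aedisj 0 1 1 (Or.inr one_ne_zero) (fun x hx => ?_) y1).symm
    have := y3 x hx
    linarith
  have d24 : AEDisjoint volume T2 T4 := by
    refine (aedisj 1 0 1 (Or.inl one_ne_zero) (fun x hx => ?_) y2).symm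
    have := y4 x hx
    linarith
  have dnull : ∀ {S T : Set P}, volume S = 0 → AEDisjoint volume S T :=
    fun h => measure_mono_null Set.inter_subset_left h
  have d12 : AEDisjoint volume T1 T2 := by
    rcases eq_or_ne h1 0 with hz | hz
    · exact dnull (by rw [v1, hz, ENNReal.ofReal_zero])
    obtain ⟨Q, hQ0, hQ1, hQ2⟩ := corner h1 h2 q1 q2 h1p h2p a2 a4
    refine aedisj h1 (-Q) (h1 - Q) (Or.inl hz) ?_ ?_
    · rw [hT1]
      exact hull_le _ _ _ _ _ _ (by simp <;> linarith) (by simp) (by simp <;> linarith)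
    · rw [hT2]
      exact hull_ge _ _ _ _ _ _ (by simp <;> linarith) (by simp) (by simp <;> linarith)
  have d32 : AEDisjoint volume T3 T2 := by
    rcases eq_or_ne h3 0 with hz | hz
    · exact dnull (by rw [v3, hz, ENNReal.ofReal_zero])
    obtain ⟨Q, hQ0, hQ1, hQ2⟩ := corner h3 h2 q3 (-q2) h3p h2p a6 (by linarith)
    refine aedisj h3 Q (h3 - Q) (Or.inl hz) ?_ ?_
    · rw [hT3]
      exact hull_le _ _ _ _ _ _ (by simp <;> linarith) (by simp <;> linarith) (by simp <;> linarith)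
    · rw [hT2]
      exact hull_ge _ _ _ _ _ _ (by simp <;> linarith) (by simp <;> linarith) (by simp <;> linarith)
  have d34 : AEDisjoint volume T3 T4 := by
    rcases eq_or_ne h3 0 with hz | hz
    · exact dnull (by rw [v3, hz, ENNReal.ofReal_zero])
    obtain ⟨Q, hQ0, hQ1, hQ2⟩ := corner h3 h4 (-q3) (-q4) h3p h4p (by linarith) (by linarith)
    refine aedisj (-h3) Q (h3 - Q) (Or.inl (neg_ne_zero.2 hz)) ?_ ?_
    · rw [hT3]
      exact hull_le _ _ _ _ _ _ (by simp <;> linarith) (by simp <;> linarith) (by simp <;> linarith)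
    · rw [hT4]
      exact hull_ge _ _ _ _ _ _ (by simp <;> linarith) (by simp <;> linarith) (by simp <;> linarith)
  have d14 : AEDisjoint volume T1 T4 := by
    rcases eq_or_ne h1 0 with hz | hz
    · exact dnull (by rw [v1, hz, ENNReal.ofReal_zero])
    obtain ⟨Q, hQ0, hQ1, hQ2⟩ := corner h1 h4 (-q1) q4 h1p h4p (by linarith) a8
    refine aedisj (-h1) (-Q) (h1 - Q) (Or.inl (neg_ne_zero.2 hz)) ?_ ?_
    · rw [hT1]
      exact hull_le _ _ _ _ _ _ (by simp <;> linarith) (by simp <;> linarith) (by simp <;> linarith)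
    · rw [hT4]
      exact hull_ge _ _ _ _ _ _ (by simp <;> linarith) (by simp <;> linarith) (by simp <;> linarith)
  have hU : volume ((((Sq ∪ T1) ∪ T2) ∪ T3) ∪ T4) ≤ volume K :=
    measure_mono (Set.union_subset (Set.union_subset (Set.union_subset
      (Set.union_subset hSq s1) s2) s3) s4)
  rw [measure_union₀ n4 (((d04.union_left d14).union_left d24).union_left d34),
    measure_union₀ n3 ((d03.union_left d13).union_left d32.symm),
    measure_union₀ n2 (d02.union_left d12), measure_union₀ n1 d01, v0, v1, v2, v3, v4] at hU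
  rw [ENNReal.ofReal_add (by linarith) h4p, ENNReal.ofReal_add (by linarith) h3p,
    ENNReal.ofReal_add (by linarith) h2p, ENNReal.ofReal_add (by linarith) h1p]
  exact hU

end Pool.Agent.N490.QD.CAPS
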