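import Pool.Agent.N490.QD.Stm

/-!
# Project QD (helper490), CMP: compactness (helper281)
-/

set_option autoImplicit false

open MeasureTheory Filter Topology TopologicalSpace

namespace Pool.Agent.N490.QD.CMP

theorem sq_compact : IsCompact Sq := by
  have h : Sq = Metric.closedBall (0 : P) 1 := by
    ext x
    rw [Metric.mem_closedBall, dist_zero_right, Prod.norm_def, sup_le_iff, Real.norm_eq_abs,
      Real.norm_eq_abs, abs_le, abs_le]
    exact ⟨fun h => ⟨⟨h.1, h.2.1⟩, h.2.2.1, h.2.2.2⟩, fun h => ⟨h.1.1, h.1.2, h.2.1, h.2.2⟩⟩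
  rw [h]
  exact isCompact_closedBall _ _

/-- Blaschke selection. -/
theorem blaschke (K : ℕ → Set P) (hc : ∀ n, IsCompact (K n)) (hne : ∀ n, (K n).Nonempty)
    (hS : ∀ n, K n ⊆ Sq) :
    ∃ L : Set P, IsCompact L ∧ ∀ ε : ℝ, 0 < ε → ∀ N : ℕ, ∃ n, N ≤ n ∧
      (∀ x ∈ K n, ∃ y ∈ L, dist x y < ε) ∧ ∀ y ∈ L, ∃ x ∈ K n, dist x y < ε := by
  have hcs : CompactSpace Sq := isCompact_iff_compactSpace.mp sq_compact
  have hpre : ∀ n, IsCompact (Subtype.val ⁻¹' K n : Set Sq) := fun n =>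
    ((hc n).isClosed.preimage continuous_subtype_val).isCompact
  have hpne : ∀ n, (Subtype.val ⁻¹' K n : Set Sq).Nonempty := by
    intro n
    obtain ⟨x, hx⟩ := hne n
    exact ⟨⟨x, hS n hx⟩, hx⟩
  let K' : ℕ → NonemptyCompacts Sq := fun n => ⟨⟨Subtype.val ⁻¹' K n, hpre n⟩, hpne n⟩
  obtain ⟨L', φ, hφ, hlim⟩ := CompactSpace.tendsto_subseq K'
  refine ⟨Subtype.val '' (L' : Set Sq), L'.isCompact.image continuous_subtype_val, ?_⟩
  intro ε hε N
  obtain ⟨M, hM⟩ := Metric.tendsto_atTop.mp hlim ε hε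
  have h1 := hM (max M N) (le_max_left _ _)
  refine ⟨φ (max M N), (le_max_right M N).trans hφ.le_apply, ?_, ?_⟩
  · intro x hx
    have h2 : (⟨x, hS _ hx⟩ : Sq) ∈ (K' (φ (max M N)) : Set Sq) := hx
    obtain ⟨y, hy, hxy⟩ := Metric.exists_dist_lt_of_hausdorffDist_lt h2 h1
      (Metric.hausdorffEDist_ne_top_of_nonempty_of_bounded (K' (φ (max M N))).nonempty
        L'.nonempty (K' (φ (max M N))).isCompact.isBounded L'.isCompact.isBounded)
    exact ⟨y.1, ⟨y, hy, rfl⟩, hxy⟩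
  · rintro _ ⟨y, hy, rfl⟩
    obtain ⟨x, hx, hxy⟩ := Metric.exists_dist_lt_of_hausdorffDist_lt' hy h1
      (Metric.hausdorffEDist_ne_top_of_nonempty_of_bounded (K' (φ (max M N))).nonempty
        L'.nonempty (K' (φ (max M N))).isCompact.isBounded L'.isCompact.isBounded)
    exact ⟨x.1, hx, hxy⟩

/-- the centre -/
noncomputable def x0 : P := (1 / 3, 1 / 3)

/-- the homothety -/
noncomputable def H (s : ℝ) (x : P) : P := x0 + s • (x - x0)

theorem ball_T0 : Metric.closedBall x0 (1 / 6) ⊆ T0 := by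
  intro x hx
  rw [Metric.mem_closedBall, dist_eq_norm, Prod.norm_def, sup_le_iff, Real.norm_eq_abs,
    Real.norm_eq_abs, abs_le, abs_le] at hx
  obtain ⟨⟨h1, h2⟩, h3, h4⟩ := hx
  have e1 : (x - x0).1 = x.1 - 1 / 3 := rfl
  have e2 : (x - x0).2 = x.2 - 1 / 3 := rfl
  rw [e1] at h1 h2
  rw [e2] at h3 h4
  refine ⟨?_, ?_, ?_⟩ <;> linarith

theorem D_H (s : ℝ) (p q r : P) : D (H s p) (H s q) (H s r) = s ^ 2 * D p q r := by
  unfold D cr H
  simp only [Prod.fst_sub, Prod.snd_sub, Prod.fst_add, Prod.snd_add, Prod.smul_fst, Prod.smul_snd,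
    smul_eq_mul]
  ring

theorem F_H (s : ℝ) (a b c d : P) :
    F (H s a) (H s b) (H s c) (H s d) = s ^ 2 * F a b c d := by
  unfold F cr H
  simp only [Prod.fst_sub, Prod.snd_sub, Prod.fst_add, Prod.snd_add, Prod.smul_fst, Prod.smul_snd,
    smul_eq_mul]
  ring

theorem H_hull (s : ℝ) (a b c d : P) :
    H s '' hull a b c d = hull (H s a) (H s b) (H s c) (H s d) := by
  have hH : H s = (AffineMap.homothety x0 s : P →ᵃ[ℝ] P) := by
    funext x
    rw [AffineMap.homothety_apply, vsub_eq_sub, vadd_eq_add, H, add_comm]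
  unfold hull
  rw [hH, AffineMap.image_convexHull, Set.image_insert_eq, Set.image_insert_eq,
    Set.image_insert_eq, Set.image_singleton]

theorem vol_H (hAFV : S_AFV) (s : ℝ) (hs : 0 < s) (S : Set P) :
    volume (H s '' S) = ENNReal.ofReal (s ^ 2) * volume S := by
  have hH : H s = Aff ((1 - s) • x0) (s, 0) (0, s) := by
    funext x
    unfold H Aff
    ext
    · simp only [Prod.fst_sub, Prod.fst_add, Prod.smul_fst, smul_eq_mul]
      ring
    · simp only [Prod.snd_sub, Prod.snd_add, Prod.smul_snd, smul_eq_mul]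
      ring
  have hcr : cr ((s, 0) : P) (0, s) = s ^ 2 := by
    unfold cr
    simp only
    ring
  have h := hAFV ((1 - s) • x0) (s, 0) (0, s) (by rw [hcr]; positivity) S
  rw [hcr, abs_of_nonneg (by positivity)] at h
  rw [hH]
  exact h

theorem scal {N : Set P} (hN : Convex ℝ N) {r s δ : ℝ} (hs : 1 < s)
    (hδ : δ ≤ (s - 1) * r) (hB : Metric.closedBall x0 r ⊆ N) {x y : P} (hy : y ∈ N)
    (hxy : dist x y ≤ δ) : x ∈ H s '' N := by
  have hs0 : 0 < s := by linarith
  have hs1 : 0 < s - 1 := by linarith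
  have hz : x0 + (s - 1)⁻¹ • (x - y) ∈ N := by
    apply hB
    rw [Metric.mem_closedBall, dist_eq_norm, add_sub_cancel_left, norm_smul, norm_inv,
      Real.norm_eq_abs, abs_of_pos hs1, inv_mul_le_iff₀ hs1]
    rw [dist_eq_norm] at hxy
    linarith
  refine ⟨s⁻¹ • y + (1 - s⁻¹) • (x0 + (s - 1)⁻¹ • (x - y)), ?_, ?_⟩
  · refine hN hy hz (by positivity) ?_ (by ring)
    have : s⁻¹ ≤ 1 := inv_le_one_of_one_le₀ hs.le
    linarith
  · unfold H
    ext
    · simp only [Prod.fst_sub, Prod.fst_add, Prod.smul_fst, smul_eq_mul]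
      field_simp
      ring
    · simp only [Prod.snd_sub, Prod.snd_add, Prod.smul_snd, smul_eq_mul]
      field_simp
      ring

/-- **CMP**. -/
theorem t_CMP (hAFV : S_AFV) : S_CMP := by
  intro hSTR
  by_contra hcon
  push Not at hcon
  have h2 : (1 : ℝ) < √2 := by
    rw [Real.lt_sqrt (by norm_num)]
    norm_num
  have key : ∀ n : ℕ, ∃ K : Set P, IsCompact K ∧ Convex ℝ K ∧ T0 ⊆ K ∧ K ⊆ Sq ∧
      ∀ a b c' d : P, Feas K a b c' d →
        (√2 - 1 / ((n : ℝ) + 2)) * (volume K).toReal < F a b c' d := by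
    intro n
    have hn : 1 / ((n : ℝ) + 2) ≤ 1 / 2 := by
      apply one_div_le_one_div_of_le (by norm_num)
      have : (0 : ℝ) ≤ n := Nat.cast_nonneg n
      linarith
    have hn' : 0 < 1 / ((n : ℝ) + 2) := by positivity
    obtain ⟨K, h1, h3, h4, h5, h6⟩ := hcon (√2 - 1 / ((n : ℝ) + 2)) (by linarith) (by linarith)
    exact ⟨K, h1, h3, h4, h5, h6⟩
  choose K hKc hKv hKT hKS hKF using key
  have hx0 : x0 ∈ T0 := ball_T0 (Metric.mem_closedBall_self (by norm_num))
  obtain ⟨L, hLc, hL⟩ := blaschke K hKc (fun n => ⟨x0, hKT n hx0⟩) hKS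
  -- `T0 ⊆ L`
  have hTL : T0 ⊆ L := by
    intro t ht
    rw [← hLc.isClosed.closure_eq, Metric.mem_closure_iff]
    intro ε hε
    obtain ⟨n, _, h3, _⟩ := hL ε hε 0
    exact h3 t (hKT n ht)
  -- `L` is convex
  have hLv : Convex ℝ L := by
    intro x hx y hy a b ha hb hab
    rw [← hLc.isClosed.closure_eq, Metric.mem_closure_iff]
    intro ε hε
    obtain ⟨n, _, h3, h4⟩ := hL (ε / 2) (by positivity) 0
    obtain ⟨x', hx', hxx⟩ := h4 x hx
    obtain ⟨y', hy', hyy⟩ := h4 y hy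
    obtain ⟨l, hl, hzl⟩ := h3 _ (hKv n hx' hy' ha hb hab)
    refine ⟨l, hl, ?_⟩
    have h5 : dist (a • x + b • y) (a • x' + b • y') ≤ ε / 2 := by
      rw [dist_eq_norm]
      have e : a • x + b • y - (a • x' + b • y') = a • (x - x') + b • (y - y') := by
        rw [smul_sub, smul_sub]
        abel
      rw [e]
      refine (norm_add_le _ _).trans ?_
      rw [norm_smul, norm_smul, Real.norm_eq_abs, Real.norm_eq_abs, abs_of_nonneg ha,
        abs_of_nonneg hb]
      rw [dist_comm, dist_eq_norm] at hxx hyy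
      have e1 := mul_le_mul_of_nonneg_left hxx.le ha
      have e2 := mul_le_mul_of_nonneg_left hyy.le hb
      calc a * ‖x - x'‖ + b * ‖y - y'‖ ≤ a * (ε / 2) + b * (ε / 2) := add_le_add e1 e2
        _ = (a + b) * (ε / 2) := by ring
        _ = ε / 2 := by rw [hab, one_mul]
    have h6 := dist_triangle (a • x + b • y) (a • x' + b • y') l
    linarith
  have hLb : Metric.closedBall x0 (1 / 6) ⊆ L := ball_T0.trans hTL
  have hLi : (interior L).Nonempty := by
    refine ⟨x0, ?_⟩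
    rw [mem_interior_iff_mem_nhds]
    exact mem_of_superset (Metric.closedBall_mem_nhds x0 (by norm_num)) hLb
  obtain ⟨a, b, c, d, ⟨hcls, hFp, hLsub⟩, hlt⟩ := hSTR L hLc hLv hLi
  set V := (volume L).toReal with hV
  have hV0 : 0 ≤ V := ENNReal.toReal_nonneg
  -- the choice of `s`
  obtain ⟨s, hs1, hsF⟩ : ∃ s : ℝ, 1 < s ∧ s ^ 4 * F a b c d < √2 * V := by
    have ht : Tendsto (fun s : ℝ => s ^ 4 * F a b c d) (𝓝[>] 1) (𝓝 (1 ^ 4 * F a b c d)) := by
      apply Tendsto.mono_left _ nhdsWithin_le_nhds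
      exact ((continuous_pow 4).mul continuous_const).tendsto 1
    have h3 : ∀ᶠ s in 𝓝[>] (1 : ℝ), s ^ 4 * F a b c d < √2 * V :=
      ht.eventually_lt_const (by rw [one_pow, one_mul]; exact hlt)
    have h4 : ∀ᶠ s in 𝓝[>] (1 : ℝ), 1 < s := self_mem_nhdsWithin
    exact (h4.and h3).exists
  have hs0 : 0 < s := by linarith
  obtain ⟨N, hN⟩ := exists_nat_gt (V / (√2 * V - s ^ 4 * F a b c d))
  have hg : 0 < √2 * V - s ^ 4 * F a b c d := by linarith
  rw [div_lt_iff₀ hg] at hN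
  obtain ⟨n, hn, h3, h4⟩ := hL ((s - 1) * (1 / 6)) (by nlinarith) N
  -- inclusions
  have hKL : K n ⊆ H s '' L := by
    intro x hx
    obtain ⟨y, hy, hxy⟩ := h3 x hx
    exact scal hLv hs1 le_rfl hLb hy hxy.le
  have hLK : L ⊆ H s '' K n := by
    intro x hx
    obtain ⟨y, hy, hxy⟩ := h4 x hx
    rw [dist_comm] at hxy
    exact scal (hKv n) hs1 le_rfl (ball_T0.trans (hKT n)) hy hxy.le
  have hfin : volume (K n) ≠ ⊤ := (hKc n).measure_ne_top
  have hVK : V ≤ s ^ 2 * (volume (K n)).toReal := by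
    have h5 : volume L ≤ ENNReal.ofReal (s ^ 2) * volume (K n) := by
      rw [← vol_H hAFV s hs0]
      exact measure_mono hLK
    have h6 := ENNReal.toReal_mono (ENNReal.mul_ne_top ENNReal.ofReal_ne_top hfin) h5
    rw [ENNReal.toReal_mul, ENNReal.toReal_ofReal (by positivity)] at h6
    exact h6
  have hfeas : Feas (K n) (H s a) (H s b) (H s c) (H s d) := by
    obtain ⟨g1, g2, g3, g4⟩ := hcls
    refine ⟨⟨?_, ?_, ?_, ?_⟩, ?_, ?_⟩
    · rw [D_H]; positivity
    · rw [D_H]; positivity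
    · rw [D_H]; positivity
    · rw [D_H]; positivity
    · rw [F_H]; positivity
    · rw [← H_hull]
      exact hKL.trans (Set.image_mono hLsub)
  have h7 := hKF n _ _ _ _ hfeas
  rw [F_H] at h7
  set c' := √2 - 1 / ((n : ℝ) + 2) with hc'
  have hc0 : 0 ≤ c' := by
    have hn : 1 / ((n : ℝ) + 2) ≤ 1 / 2 := by
      apply one_div_le_one_div_of_le (by norm_num)
      have : (0 : ℝ) ≤ n := Nat.cast_nonneg n
      linarith
    rw [hc']
    linarith
  -- final contradiction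
  have h8 : c' * V ≤ s ^ 4 * F a b c d := by
    calc c' * V ≤ c' * (s ^ 2 * (volume (K n)).toReal) := mul_le_mul_of_nonneg_left hVK hc0
      _ = s ^ 2 * (c' * (volume (K n)).toReal) := by ring
      _ ≤ s ^ 2 * (s ^ 2 * F a b c d) := mul_le_mul_of_nonneg_left h7.le (by positivity)
      _ = s ^ 4 * F a b c d := by ring
  have h9 : V < ((n : ℝ) + 2) * (√2 * V - s ^ 4 * F a b c d) := by
    refine lt_of_lt_of_le hN (mul_le_mul_of_nonneg_right ?_ hg.le)
    have : (N : ℝ) ≤ n := by exact_mod_cast hn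
    linarith
  have h10 : V / ((n : ℝ) + 2) < √2 * V - s ^ 4 * F a b c d := by
    rw [div_lt_iff₀ (by positivity)]
    linarith
  have h11 : c' * V = √2 * V - V / ((n : ℝ) + 2) := by
    rw [hc']
    ring
  linarith

end Pool.Agent.N490.QD.CMP
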