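import Pool.Agent.N490.QD.Stm

/-!
# Project QD (helper490), leaf CUT: cutting off a corner of a triangle (helper413)
-/

set_option autoImplicit false

namespace Pool.Agent.N490.QD.CUT

open Pool.Agent.N490.QD

theorem D_comb (p q x y : P) (a b : ℝ) (h : a + b = 1) :
    D p q (a • x + b • y) = a * D p q x + b * D p q y := by
  obtain rfl : b = 1 - a := by linarith
  unfold D cr
  simp only [Prod.fst_sub, Prod.snd_sub, Prod.fst_add, Prod.snd_add, Prod.smul_fst, Prod.smul_snd,
    smul_eq_mul]
  ring

theorem D_self1 (p q : P) : D p q p = 0 := by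
  unfold D cr
  simp only [Prod.fst_sub, Prod.snd_sub]
  ring

theorem D_self2 (p q : P) : D p q q = 0 := by
  unfold D cr
  simp only [Prod.fst_sub, Prod.snd_sub]
  ring

theorem D_cyc (p q r : P) : D q r p = D p q r := by
  unfold D cr
  simp only [Prod.fst_sub, Prod.snd_sub]
  ring

theorem D_sum (p q r x : P) : D q r x + D r p x + D p q x = D p q r := by
  unfold D cr
  simp only [Prod.fst_sub, Prod.snd_sub]
  ring

theorem D_vec (p q r x : P) : D p q r • x = D q r x • p + D r p x • q + D p q x • r := by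
  unfold D cr
  ext
  · simp only [Prod.fst_sub, Prod.snd_sub, Prod.fst_add, Prod.smul_fst, smul_eq_mul]
    ring
  · simp only [Prod.fst_sub, Prod.snd_sub, Prod.snd_add, Prod.smul_snd, smul_eq_mul]
    ring

theorem D_nonneg (p q r : P) (h : 0 < D p q r) (x : P) (hx : x ∈ convexHull ℝ ({p, q, r} : Set P)) :
    0 ≤ D p q x := by
  have h1 : convexHull ℝ ({p, q, r} : Set P) ⊆ {x | 0 ≤ D p q x} := by
    refine convexHull_min ?_ ?_
    · rintro y (rfl | rfl | rfl)
      · exact (D_self1 _ _).ge
      · exact (D_self2 _ _).ge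
      · exact h.le
    · intro y hy z hz a b ha hb hab
      change 0 ≤ D p q (a • y + b • z)
      rw [D_comb p q y z a b hab]
      exact add_nonneg (mul_nonneg ha hy) (mul_nonneg hb hz)
  exact h1 hx

theorem rot (p q r : P) : ({q, r, p} : Set P) = {p, q, r} := by
  ext x
  simp only [Set.mem_insert_iff, Set.mem_singleton_iff]
  tauto

/-- The point `p` is not in `K`. -/
theorem cut1 (hHP : S_HP) (K : Set P) (hK : IsClosed K) (hc : Convex ℝ K) (p q r : P)
    (hD : 0 < D p q r) (hs : K ⊆ convexHull ℝ {p, q, r}) (hp : p ∉ K) :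
    ∃ a b c d : P, Str a b c d ∧ K ⊆ hull a b c d ∧ F a b c d < D p q r / 2 := by
  obtain ⟨f, φ, h1, h2⟩ := geometric_hahn_banach_closed_point hc hK hp
  obtain ⟨s, hs0, hs1, h3, h4⟩ : ∃ s : ℝ, 0 < s ∧ s < 1 ∧ φ < f p + s * (f q - f p) ∧
      φ < f p + s * (f r - f p) := by
    set B : ℝ := |f q - f p| + |f r - f p| + 1 with hB
    have hB0 : 0 < B := by positivity
    have hA : 0 < f p - φ := by linarith
    refine ⟨(f p - φ) / (f p - φ + B), div_pos hA (by linarith),
      (div_lt_one (by linarith)).2 (by linarith), ?_, ?_⟩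
    · have h5 : -(f q - f p) < B := by
        have := neg_abs_le (f q - f p)
        have := abs_nonneg (f r - f p)
        linarith
      have h6 : (f p - φ) / (f p - φ + B) * (f q - f p) =
          (f p - φ) * (f q - f p) / (f p - φ + B) := by ring
      rw [h6, ← sub_lt_iff_lt_add', lt_div_iff₀ (by linarith)]
      nlinarith [mul_pos hA hA, mul_lt_mul_of_pos_left h5 hA]
    · have h5 : -(f r - f p) < B := by
        have := neg_abs_le (f r - f p)
        have := abs_nonneg (f q - f p)
        linarith
      have h6 : (f p - φ) / (f p - φ + B) * (f r - f p) =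
          (f p - φ) * (f r - f p) / (f p - φ + B) := by ring
      rw [h6, ← sub_lt_iff_lt_add', lt_div_iff₀ (by linarith)]
      nlinarith [mul_pos hA hA, mul_lt_mul_of_pos_left h5 hA]
  have e1 : D (p + s • (q - p)) q r = (1 - s) * D p q r := by
    unfold D cr
    simp only [Prod.fst_sub, Prod.snd_sub, Prod.fst_add, Prod.snd_add, Prod.smul_fst,
      Prod.smul_snd, smul_eq_mul]
    ring
  have e2 : D q r (p + s • (r - p)) = (1 - s) * D p q r := by
    unfold D cr
    simp only [Prod.fst_sub, Prod.snd_sub, Prod.fst_add, Prod.snd_add, Prod.smul_fst,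
      Prod.smul_snd, smul_eq_mul]
    ring
  have e3 : D r (p + s • (r - p)) (p + s • (q - p)) = s * (1 - s) * D p q r := by
    unfold D cr
    simp only [Prod.fst_sub, Prod.snd_sub, Prod.fst_add, Prod.snd_add, Prod.smul_fst,
      Prod.smul_snd, smul_eq_mul]
    ring
  have e4 : D (p + s • (r - p)) (p + s • (q - p)) q = s * (1 - s) * D p q r := by
    unfold D cr
    simp only [Prod.fst_sub, Prod.snd_sub, Prod.fst_add, Prod.snd_add, Prod.smul_fst,
      Prod.smul_snd, smul_eq_mul]
    ring
  have eF : F (p + s • (q - p)) q r (p + s • (r - p)) = (1 - s ^ 2) * D p q r / 2 := by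
    unfold F D cr
    simp only [Prod.fst_sub, Prod.snd_sub, Prod.fst_add, Prod.snd_add, Prod.smul_fst,
      Prod.smul_snd, smul_eq_mul]
    ring
  have hs1' : 0 < 1 - s := by linarith
  have hS : Str (p + s • (q - p)) q r (p + s • (r - p)) := by
    refine ⟨?_, ?_, ?_, ?_⟩
    · rw [e1]; positivity
    · rw [e2]; positivity
    · rw [e3]; positivity
    · rw [e4]; positivity
  have hs2 : 0 < 1 - s ^ 2 := by nlinarith
  have hF : 0 < F (p + s • (q - p)) q r (p + s • (r - p)) := by
    rw [eF]; positivity
  refine ⟨_, _, _, _, hS, fun x hx => ?_, ?_⟩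
  · rw [hHP _ _ _ _ ⟨hS.1.le, hS.2.1.le, hS.2.2.1.le, hS.2.2.2.le⟩ hF]
    have hx' := hs hx
    have g1 : 0 ≤ D p q x := D_nonneg p q r hD x hx'
    have g2 : 0 ≤ D q r x := D_nonneg q r p (by rwa [D_cyc]) x (by rwa [rot])
    have g3 : 0 ≤ D r p x := D_nonneg r p q (by rwa [D_cyc, D_cyc]) x (by rwa [rot, rot])
    have u1 : D (p + s • (q - p)) q x = (1 - s) * D p q x := by
      unfold D cr
      simp only [Prod.fst_sub, Prod.snd_sub, Prod.fst_add, Prod.snd_add, Prod.smul_fst,
        Prod.smul_snd, smul_eq_mul]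
      ring
    have u3 : D r (p + s • (r - p)) x = (1 - s) * D r p x := by
      unfold D cr
      simp only [Prod.fst_sub, Prod.snd_sub, Prod.fst_add, Prod.snd_add, Prod.smul_fst,
        Prod.smul_snd, smul_eq_mul]
      ring
    have u4 : D (p + s • (r - p)) (p + s • (q - p)) x =
        s * ((1 - s) * D p q r - D q r x) := by
      unfold D cr
      simp only [Prod.fst_sub, Prod.snd_sub, Prod.fst_add, Prod.snd_add, Prod.smul_fst,
        Prod.smul_snd, smul_eq_mul]
      ring
    refine ⟨?_, g2, ?_, ?_⟩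
    · rw [u1]; positivity
    · rw [u3]; positivity
    · rw [u4]
      refine mul_nonneg hs0.le ?_
      by_contra hcon
      push Not at hcon
      have v1 : D q r x - (1 - s) * D p q r > 0 := by linarith
      have v2 := h1 x hx
      have v3 := congrArg f (D_vec p q r x)
      rw [map_add, map_add, map_smul, map_smul, map_smul, map_smul, smul_eq_mul, smul_eq_mul,
        smul_eq_mul, smul_eq_mul] at v3
      have v4 := D_sum p q r x
      have w1 := mul_pos v1 (by linarith : 0 < f p - φ)
      have w2 := mul_nonneg g3 (by linarith : 0 ≤ f p + s * (f q - f p) - φ)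
      have w3 := mul_nonneg g1 (by linarith : 0 ≤ f p + s * (f r - f p) - φ)
      have w4 := mul_pos (mul_pos hs0 hD) (by linarith : 0 < φ - f x)
      have w5 : s * D p q r * (φ - f x) = -((D q r x - (1 - s) * D p q r) * (f p - φ) +
          D r p x * (f p + s * (f q - f p) - φ) + D p q x * (f p + s * (f r - f p) - φ)) := by
        rw [mul_sub, mul_assoc s (D p q r) (f x), v3, ← v4]
        ring
      linarith
  · rw [eF]
    have : 0 < s ^ 2 * D p q r := by positivity
    linarith

theorem t_CUT (hHP : S_HP) : S_CUT := by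
  intro K hK hc p q r hD hs hn
  by_cases hp : p ∈ K
  · by_cases hq : q ∈ K
    · have hr : r ∉ K := by
        intro hr
        apply hn
        refine convexHull_min ?_ hc
        rintro y (rfl | rfl | rfl)
        · exact hp
        · exact hq
        · exact hr
      obtain ⟨a, b, c, d, h1, h2, h3⟩ := cut1 hHP K hK hc r p q (by rwa [D_cyc, D_cyc])
        (by rwa [← rot r p q, ]) hr
      exact ⟨a, b, c, d, h1, h2, by rwa [D_cyc, D_cyc] at h3⟩
    · obtain ⟨a, b, c, d, h1, h2, h3⟩ := cut1 hHP K hK hc q r p (by rwa [D_cyc])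
        (by rwa [rot]) hq
      exact ⟨a, b, c, d, h1, h2, by rwa [D_cyc] at h3⟩
  · exact cut1 hHP K hK hc p q r hD hs hp

end Pool.Agent.N490.QD.CUT
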