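import Pool.Agent.N490.QD.Stm

set_option autoImplicit false

/-!
# Project QD, leaf EQS: a closed subset of full area of a convex body (helper914)
-/

namespace Pool.Agent.N490.QD.EQS

open MeasureTheory Pool.Agent.N490.QD

theorem t_EQS : S_EQS := by
  intro K O hK hint hO hOK hfin hle z hz
  by_contra hzO
  have h1 : z ∈ closure (interior K) := by
    rw [hK.closure_interior_eq_closure_of_nonempty_interior hint]
    exact subset_closure hz
  have hU : IsOpen (Oᶜ ∩ interior K) := hO.isOpen_compl.inter isOpen_interior
  have hne : (Oᶜ ∩ interior K).Nonempty := mem_closure_iff.1 h1 Oᶜ hO.isOpen_compl hzO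
  have hpos : 0 < volume (Oᶜ ∩ interior K) := hU.measure_pos volume hne
  have hdis : Disjoint O (Oᶜ ∩ interior K) :=
    Set.disjoint_left.2 fun x hx hx' => hx'.1 hx
  have h2 : volume (O ∪ (Oᶜ ∩ interior K)) = volume O + volume (Oᶜ ∩ interior K) :=
    measure_union hdis hU.measurableSet
  have h3 : volume (O ∪ (Oᶜ ∩ interior K)) ≤ volume K :=
    measure_mono (Set.union_subset hOK (Set.inter_subset_right.trans interior_subset))
  rw [h2] at h3
  have h4 : volume O + volume (Oᶜ ∩ interior K) ≤ volume O + 0 := by
    rw [add_zero]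
    exact h3.trans hle
  have h5 := (ENNReal.add_le_add_iff_left hfin).1 h4
  exact absurd hpos (not_lt.2 h5)

end Pool.Agent.N490.QD.EQS
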