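import Pool.Agent.N490.QD.Stm

/-!
# Project QD: a convex quadrilateral is the intersection of four half planes; areas
-/

set_option autoImplicit false

namespace Pool.Agent.N490.QD

open MeasureTheory

theorem D_cyc (p q r : P) : D p q r = D q r p := by
  simp only [D, cr, Prod.fst_sub, Prod.snd_sub]; ring

theorem D_cyc' (p q r : P) : D p q r = D r p q := by
  simp only [D, cr, Prod.fst_sub, Prod.snd_sub]; ring

theorem D_self (p q : P) : D p q p = 0 := by
  simp only [D, cr, Prod.fst_sub, Prod.snd_sub]; ring

theorem D_self' (p q : P) : D p q q = 0 := by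
  simp only [D, cr, Prod.fst_sub, Prod.snd_sub]; ring

theorem two_F (a b c d : P) : D a b c + D c d a = 2 * F a b c d := by
  simp only [D, F, cr, Prod.fst_sub, Prod.snd_sub]; ring

theorem two_F' (a b c d : P) : D b c d + D d a b = 2 * F a b c d := by
  simp only [D, F, cr, Prod.fst_sub, Prod.snd_sub]; ring

theorem D_split (a b c x : P) : D a c x = D a b x + D b c x - D a b c := by
  simp only [D, cr, Prod.fst_sub, Prod.snd_sub]; ring

theorem convex_D (p q : P) : Convex ℝ {x : P | 0 ≤ D p q x} := by
  intro x hx y hy s t hs ht hst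
  simp only [Set.mem_ofPred_eq] at hx hy ⊢
  have h : D p q (s • x + t • y) = s * D p q x + t * D p q y := by
    have ht' : t = 1 - s := by linarith
    subst ht'
    simp only [D, cr, Prod.fst_sub, Prod.snd_sub, Prod.fst_add, Prod.snd_add, Prod.smul_fst,
      Prod.smul_snd, smul_eq_mul]
    ring
  rw [h]
  positivity

/-- Barycentric coordinates. -/
theorem mem_tri (p q r x : P) (hD : 0 < D p q r) (h1 : 0 ≤ D p q x) (h2 : 0 ≤ D q r x)
    (h3 : 0 ≤ D r p x) : x ∈ convexHull ℝ {p, q, r} := by
  have hs : D q r x + D r p x + D p q x = D p q r := by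
    simp only [D, cr, Prod.fst_sub, Prod.snd_sub]; ring
  have hx : x = (D q r x / D p q r) • p + (D r p x / D p q r) • q + (D p q x / D p q r) • r := by
    have h4 : (D p q r) • x = (D q r x) • p + (D r p x) • q + (D p q x) • r := by
      ext
      · simp only [D, cr, Prod.fst_sub, Prod.snd_sub, Prod.fst_add, Prod.smul_fst,
          smul_eq_mul]
        ring
      · simp only [D, cr, Prod.fst_sub, Prod.snd_sub, Prod.snd_add, Prod.smul_snd,
          smul_eq_mul]
        ring
    have h5 : x = (D p q r)⁻¹ • ((D p q r) • x) := by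
      rw [smul_smul, inv_mul_cancel₀ hD.ne', one_smul]
    refine h5.trans ?_
    rw [h4]
    simp only [smul_add, smul_smul, div_eq_inv_mul]
  have ha : p ∈ convexHull ℝ ({p, q, r} : Set P) := subset_convexHull ℝ _ (by simp)
  have hb : q ∈ convexHull ℝ ({p, q, r} : Set P) := subset_convexHull ℝ _ (by simp)
  have hc : r ∈ convexHull ℝ ({p, q, r} : Set P) := subset_convexHull ℝ _ (by simp)
  have hconv := convex_convexHull ℝ ({p, q, r} : Set P)
  have := hconv.sum_mem (t := Finset.univ)
    (w := ![D q r x / D p q r, D r p x / D p q r, D p q x / D p q r]) (z := ![p, q, r])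
    (by intro i _; fin_cases i <;> simp <;> positivity)
    (by
      simp only [Fin.sum_univ_three, Matrix.cons_val_zero, Matrix.cons_val_one, Matrix.cons_val]
      rw [← add_div, ← add_div, hs, div_self hD.ne'])
    (by intro i _; fin_cases i <;> simp [ha, hb, hc])
  rw [hx]
  simpa [Fin.sum_univ_three] using this

theorem t_HP : S_HP := by
  intro a b c d hcls hF x
  obtain ⟨h1, h2, h3, h4⟩ := hcls
  have e1 := two_F a b c d
  constructor
  · intro hx
    have key : ∀ p q : P, 0 ≤ D p q a → 0 ≤ D p q b → 0 ≤ D p q c → 0 ≤ D p q d →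
        0 ≤ D p q x := by
      intro p q ha hb hc hd
      have : hull a b c d ⊆ {x : P | 0 ≤ D p q x} := by
        apply convexHull_min _ (convex_D p q)
        intro y hy
        simp only [Set.mem_insert_iff, Set.mem_singleton_iff] at hy
        rcases hy with rfl | rfl | rfl | rfl
        · exact ha
        · exact hb
        · exact hc
        · exact hd
      exact this hx
    refine ⟨key a b ?_ ?_ h1 ?_, key b c ?_ ?_ ?_ h2, key c d h3 ?_ ?_ ?_, key d a ?_ h4 ?_ ?_⟩
    · rw [D_self]
    · rw [D_self']
    · rw [← D_cyc']; rw [← D_cyc']; exact h4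
    · rw [← D_cyc]; exact h1
    · rw [D_self]
    · rw [D_self']
    · rw [← D_cyc]; exact h2
    · rw [D_self]
    · rw [D_self']
    · rw [D_self']
    · rw [← D_cyc]; exact h3
    · rw [D_self]
  · rintro ⟨k1, k2, k3, k4⟩
    have s1 := D_split a b c x
    have s2 := D_split c d a x
    have s3 : D c a x = - D a c x := by
      simp only [D, cr, Prod.fst_sub, Prod.snd_sub]; ring
    have m1 : convexHull ℝ ({a, c, d} : Set P) ⊆ hull a b c d := by
      apply convexHull_mono
      intro y hy
      simp only [Set.mem_insert_iff, Set.mem_singleton_iff] at hy ⊢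
      tauto
    have m2 : convexHull ℝ ({a, b, c} : Set P) ⊆ hull a b c d := by
      apply convexHull_mono
      intro y hy
      simp only [Set.mem_insert_iff, Set.mem_singleton_iff] at hy ⊢
      tauto
    by_cases hac : 0 ≤ D a c x ∧ 0 < D c d a
    · apply m1
      apply mem_tri a c d x
      · rw [D_cyc]; exact hac.2
      · exact hac.1
      · exact k3
      · exact k4
    · apply m2
      by_cases h5 : 0 < D c d a
      · have h6 : D a c x < 0 := by
          by_contra h7
          exact hac ⟨not_lt.mp h7, h5⟩
        by_cases h7 : 0 < D a b c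
        · apply mem_tri a b c x h7 k1 k2
          rw [s3]; linarith
        · exfalso
          have : D a b c = 0 := le_antisymm (not_lt.mp h7) h1
          rw [this] at s1
          linarith
      · have h6 : D c d a = 0 := le_antisymm (not_lt.mp h5) h3
        have h7 : 0 < D a b c := by linarith
        apply mem_tri a b c x h7 k1 k2
        rw [s2, h6]; linarith

/-- The diagonal `a c` cuts the quadrilateral into two triangles. -/
theorem hull_split (a b c d : P) (hcls : Cls a b c d) (hF : 0 < F a b c d) :
    hull a b c d ⊆ convexHull ℝ {a, b, c} ∪ convexHull ℝ {a, c, d} := by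
  intro x hx
  obtain ⟨k1, k2, k3, k4⟩ := (t_HP a b c d hcls hF x).mp hx
  obtain ⟨h1, h2, h3, h4⟩ := hcls
  have e1 := two_F a b c d
  have s1 := D_split a b c x
  have s2 := D_split c d a x
  have s3 : D c a x = - D a c x := by
    simp only [D, cr, Prod.fst_sub, Prod.snd_sub]; ring
  by_cases hac : 0 ≤ D a c x ∧ 0 < D c d a
  · right
    apply mem_tri a c d x
    · rw [D_cyc]; exact hac.2
    · exact hac.1
    · exact k3
    · exact k4
  · left
    by_cases h5 : 0 < D c d a
    · have h6 : D a c x < 0 := by
        by_contra h7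
        exact hac ⟨not_lt.mp h7, h5⟩
      by_cases h7 : 0 < D a b c
      · apply mem_tri a b c x h7 k1 k2
        rw [s3]; linarith
      · exfalso
        have : D a b c = 0 := le_antisymm (not_lt.mp h7) h1
        rw [this] at s1
        linarith
    · have h6 : D c d a = 0 := le_antisymm (not_lt.mp h5) h3
      have h7 : 0 < D a b c := by linarith
      apply mem_tri a b c x h7 k1 k2
      rw [s2, h6]; linarith

theorem cr_eq (u v : P) : Pool.Agent.Helper484.Crit.cr u v = cr u v := rfl

theorem vol_tri (a b c : P) :
    volume (convexHull ℝ {a, b, c}) = ENNReal.ofReal (|D a b c| / 2) :=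
  Pool.Agent.Helper484.Crit.FG.volume_triangle a b c

theorem t_AREA : S_AREA := by
  intro a b c d hcls hF
  have h1 := hcls.1
  have h3 := hcls.2.2.1
  have e1 := two_F a b c d
  refine (measure_mono (hull_split a b c d hcls hF)).trans ((measure_union_le _ _).trans ?_)
  rw [vol_tri, vol_tri, ← ENNReal.ofReal_add (by positivity) (by positivity)]
  apply ENNReal.ofReal_le_ofReal
  have e2 : D a c d = D c d a := D_cyc a c d
  rw [e2, abs_of_nonneg h1, abs_of_nonneg h3]
  linarith

theorem t_AFV : S_AFV := by
  intro o e g hc S
  have h1 : Aff o e g '' S = (fun x => o + x) ''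
      ((Pool.Agent.Helper484.Crit.FG.linUV e g) '' S) := by
    rw [Set.image_image]
    apply Set.image_congr
    intro x _
    simp only [Aff, Pool.Agent.Helper484.Crit.FG.linUV, LinearMap.coe_mk, AddHom.coe_mk]
    abel
  rw [h1]
  rw [Set.image_add_left, measure_preimage_add, Measure.addHaar_image_linearMap,
    Pool.Agent.Helper484.Crit.FG.det_linUV, cr_eq]

end Pool.Agent.N490.QD
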