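import Pool.Agent.N490.QD.Stm

/-!
# Existence of a minimal circumscribed quadrilateral (project QD, leaf MIN, helper186)
-/

set_option autoImplicit false

namespace Pool.Agent.N490.QD.MIN

open MeasureTheory Pool.Agent.N490.QD

theorem cr_lin (e : P) : IsLinearMap ℝ (cr e) where
  map_add x y := by simp only [cr, Prod.fst_add, Prod.snd_add]; ring
  map_smul t x := by simp only [cr, Prod.smul_fst, Prod.smul_snd, smul_eq_mul]; ring

theorem hull_le (e : P) (β : ℝ) {a b c d y : P} (ha : cr e a ≤ β) (hb : cr e b ≤ β)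
    (hc : cr e c ≤ β) (hd : cr e d ≤ β) (hy : y ∈ hull a b c d) : cr e y ≤ β := by
  have hsub : ({a, b, c, d} : Set P) ⊆ {w | cr e w ≤ β} := by
    intro w hw
    simp only [Set.mem_insert_iff, Set.mem_singleton_iff] at hw
    rcases hw with rfl | rfl | rfl | rfl <;> assumption
  exact convexHull_min hsub (convex_halfSpace_le (cr_lin e) β) hy

theorem hull_ge (e : P) (β : ℝ) {a b c d y : P} (ha : β ≤ cr e a) (hb : β ≤ cr e b)
    (hc : β ≤ cr e c) (hd : β ≤ cr e d) (hy : y ∈ hull a b c d) : β ≤ cr e y := by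
  have hsub : ({a, b, c, d} : Set P) ⊆ {w | β ≤ cr e w} := by
    intro w hw
    simp only [Set.mem_insert_iff, Set.mem_singleton_iff] at hw
    rcases hw with rfl | rfl | rfl | rfl <;> assumption
  exact convexHull_min hsub (convex_halfSpace_ge (cr_lin e) β) hy

/-- the widths in the directions of the diagonals -/
theorem width {a b c d : P} (hC : Cls a b c d) {y y' : P} (hy : y ∈ hull a b c d)
    (hy' : y' ∈ hull a b c d) :
    |cr (c - a) y - cr (c - a) y'| ≤ 2 * F a b c d ∧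
    |cr (d - b) y - cr (d - b) y'| ≤ 2 * F a b c d := by
  obtain ⟨h1, h2, h3, h4⟩ := hC
  unfold D at h1 h2 h3 h4
  simp only [cr, Prod.fst_sub, Prod.snd_sub] at h1 h2 h3 h4
  have e1 : ∀ z ∈ hull a b c d, cr (c - a) b ≤ cr (c - a) z ∧ cr (c - a) z ≤ cr (c - a) d := by
    intro z hz
    refine ⟨hull_ge _ _ ?_ le_rfl ?_ ?_ hz, hull_le _ _ ?_ ?_ ?_ le_rfl hz⟩ <;>
    · simp only [cr, Prod.fst_sub, Prod.snd_sub]
      linarith
  have e2 : ∀ z ∈ hull a b c d, cr (d - b) c ≤ cr (d - b) z ∧ cr (d - b) z ≤ cr (d - b) a := by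
    intro z hz
    refine ⟨hull_ge _ _ ?_ ?_ le_rfl ?_ hz, hull_le _ _ le_rfl ?_ ?_ ?_ hz⟩ <;>
    · simp only [cr, Prod.fst_sub, Prod.snd_sub]
      linarith
  have w1 : cr (c - a) d - cr (c - a) b = 2 * F a b c d := by
    unfold F
    simp only [cr, Prod.fst_sub, Prod.snd_sub]
    ring
  have w2 : cr (d - b) a - cr (d - b) c = 2 * F a b c d := by
    unfold F
    simp only [cr, Prod.fst_sub, Prod.snd_sub]
    ring
  have := e1 y hy
  have := e1 y' hy'
  have := e2 y hy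
  have := e2 y' hy'
  constructor <;> rw [abs_le] <;> constructor <;> linarith

theorem bd {K : Set P} {x₀ : P} {r : ℝ} (hr : 0 < r) (hball : Metric.closedBall x₀ r ⊆ K)
    {a b c d : P} (hf : Feas K a b c d) : r ^ 2 ≤ F a b c d ∧ ∀ v ∈ hull a b c d,
      |v.1 - x₀.1| ≤ 2 * F a b c d / r ∧ |v.2 - x₀.2| ≤ 2 * F a b c d / r := by
  obtain ⟨hC, hF, hK⟩ := hf
  have hin : ∀ s t : ℝ, |s| ≤ r → |t| ≤ r → ((x₀.1 + s, x₀.2 + t) : P) ∈ hull a b c d := by
    intro s t hs ht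
    apply hK
    apply hball
    rw [Metric.mem_closedBall, Prod.dist_eq, Real.dist_eq, Real.dist_eq]
    refine max_le ?_ ?_
    · simpa using hs
    · simpa using ht
  have hr' : |r| ≤ r := le_of_eq (abs_of_pos hr)
  have hrn : |(-r)| ≤ r := by rw [abs_neg]; exact hr'
  have h0 : |(0 : ℝ)| ≤ r := by rw [abs_zero]; exact hr.le
  have wx := width hC (hin r 0 hr' h0) (hin (-r) 0 hrn h0)
  have wy := width hC (hin 0 r h0 hr') (hin 0 (-r) h0 hrn)
  set e := c - a with he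
  set g := d - b with hg
  set A := F a b c d with hA
  have h2A : 2 * A = e.1 * g.2 - e.2 * g.1 := by
    rw [hA]; unfold F cr; ring
  have b1 : r * |e.2| ≤ A ∧ r * |g.2| ≤ A := by
    constructor
    · have h := wx.1
      have e1 : cr e (x₀.1 + r, x₀.2 + 0) - cr e (x₀.1 + -r, x₀.2 + 0) = -(2 * (r * e.2)) := by
        simp only [cr]; ring
      rw [e1, abs_neg, abs_mul, abs_mul, abs_of_pos hr, abs_two] at h
      linarith
    · have h := wx.2
      have e1 : cr g (x₀.1 + r, x₀.2 + 0) - cr g (x₀.1 + -r, x₀.2 + 0) = -(2 * (r * g.2)) := by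
        simp only [cr]; ring
      rw [e1, abs_neg, abs_mul, abs_mul, abs_of_pos hr, abs_two] at h
      linarith
  have b2 : r * |e.1| ≤ A ∧ r * |g.1| ≤ A := by
    constructor
    · have h := wy.1
      have e1 : cr e (x₀.1 + 0, x₀.2 + r) - cr e (x₀.1 + 0, x₀.2 + -r) = 2 * (r * e.1) := by
        simp only [cr]; ring
      rw [e1, abs_mul, abs_mul, abs_of_pos hr, abs_two] at h
      linarith
    · have h := wy.2
      have e1 : cr g (x₀.1 + 0, x₀.2 + r) - cr g (x₀.1 + 0, x₀.2 + -r) = 2 * (r * g.1) := by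
        simp only [cr]; ring
      rw [e1, abs_mul, abs_mul, abs_of_pos hr, abs_two] at h
      linarith
  constructor
  · -- 2 A r^2 <= 2 A^2
    have p1 : (r * |e.1|) * (r * |g.2|) ≤ A * A :=
      mul_le_mul b2.1 b1.2 (by positivity) hF.le
    have p2 : (r * |e.2|) * (r * |g.1|) ≤ A * A :=
      mul_le_mul b1.1 b2.2 (by positivity) hF.le
    have q1 : e.1 * g.2 ≤ |e.1| * |g.2| := by rw [← abs_mul]; exact le_abs_self _
    have q2 : -(e.2 * g.1) ≤ |e.2| * |g.1| := by rw [← abs_mul]; exact neg_le_abs _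
    have hr2 : 0 < r ^ 2 := by positivity
    have q3 : r ^ 2 * (2 * A) ≤ 2 * A * A := by
      rw [h2A]
      have q4 : r ^ 2 * (e.1 * g.2 - e.2 * g.1) ≤ r ^ 2 * (|e.1| * |g.2| + |e.2| * |g.1|) :=
        mul_le_mul_of_nonneg_left (by linarith) hr2.le
      have q5 : r ^ 2 * (|e.1| * |g.2| + |e.2| * |g.1|) =
          (r * |e.1|) * (r * |g.2|) + (r * |e.2|) * (r * |g.1|) := by ring
      have q6 : 2 * A * A = A * A + A * A := by ring
      have q7 : (e.1 * g.2 - e.2 * g.1) * A = 2 * A * A := by rw [← h2A]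
      linarith
    have q8 : r ^ 2 * (2 * A) ≤ A * (2 * A) := by linarith
    exact le_of_mul_le_mul_right q8 (by linarith)
  · intro v hv
    have hx : ((x₀.1 + 0, x₀.2 + 0) : P) ∈ hull a b c d := hin 0 0 h0 h0
    have wv := width hC hv hx
    have hpos : 0 < 2 * A := by linarith
    have k1 : 2 * A * (v.1 - x₀.1) = (cr e v - cr e (x₀.1 + 0, x₀.2 + 0)) * g.1 -
        (cr g v - cr g (x₀.1 + 0, x₀.2 + 0)) * e.1 := by
      rw [h2A]; simp only [cr]; ring
    have k2 : 2 * A * (v.2 - x₀.2) = (cr e v - cr e (x₀.1 + 0, x₀.2 + 0)) * g.2 -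
        (cr g v - cr g (x₀.1 + 0, x₀.2 + 0)) * e.2 := by
      rw [h2A]; simp only [cr]; ring
    have key : ∀ (w s t α β : ℝ), 2 * A * w = s * α - t * β → |s| ≤ 2 * A → |t| ≤ 2 * A →
        r * |α| ≤ A → r * |β| ≤ A → |w| ≤ 2 * A / r := by
      intro w s t α β hw hs ht hα hβ
      rw [le_div_iff₀ hr]
      have l1 : 2 * A * |w| ≤ 2 * A * (|α| + |β|) := by
        calc 2 * A * |w| = |2 * A * w| := by rw [abs_mul, abs_of_pos hpos]
          _ = |s * α - t * β| := by rw [hw]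
          _ ≤ |s * α| + |t * β| := abs_sub _ _
          _ = |s| * |α| + |t| * |β| := by rw [abs_mul, abs_mul]
          _ ≤ 2 * A * |α| + 2 * A * |β| := by gcongr
          _ = _ := by ring
      have l2 : |w| ≤ |α| + |β| := le_of_mul_le_mul_left l1 hpos
      have l3 : |w| * r ≤ (|α| + |β|) * r := mul_le_mul_of_nonneg_right l2 hr.le
      linarith
    exact ⟨key _ _ _ _ _ k1 wv.1 wv.2 b2.2 b2.1, key _ _ _ _ _ k2 wv.1 wv.2 b1.2 b1.1⟩

/-- a big square -/
theorem exists_feas (hHP : S_HP) {K : Set P} (hK : IsCompact K) : ∃ a b c d : P, Feas K a b c d := by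
  obtain ⟨R, hR, hsub⟩ := hK.isBounded.subset_closedBall_lt 0 (0 : P)
  have hC : Cls ((-R, -R) : P) (R, -R) (R, R) (-R, R) := by
    unfold Cls D
    simp only [cr, Prod.fst_sub, Prod.snd_sub]
    refine ⟨?_, ?_, ?_, ?_⟩ <;> nlinarith
  have hF : 0 < F ((-R, -R) : P) (R, -R) (R, R) (-R, R) := by
    unfold F
    simp only [cr, Prod.fst_sub, Prod.snd_sub]
    nlinarith
  refine ⟨(-R, -R), (R, -R), (R, R), (-R, R), hC, hF, fun x hx => ?_⟩
  rw [hHP _ _ _ _ hC hF]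
  have h1 := hsub hx
  rw [Metric.mem_closedBall, Prod.dist_eq, Real.dist_eq, Real.dist_eq] at h1
  have h2 := (le_max_left _ _).trans h1
  have h3 := (le_max_right _ _).trans h1
  simp only [Prod.fst_zero, Prod.snd_zero, sub_zero] at h2 h3
  rw [abs_le] at h2 h3
  unfold D
  simp only [cr, Prod.fst_sub, Prod.snd_sub]
  refine ⟨?_, ?_, ?_, ?_⟩ <;> nlinarith

theorem t_MIN (hHP : S_HP) : S_MIN := by
  intro K hK _ hint
  obtain ⟨x₀, hx₀⟩ := hint
  obtain ⟨ρ, hρ, hball0⟩ := Metric.isOpen_iff.1 isOpen_interior x₀ hx₀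
  set r := ρ / 2 with hr
  have hr0 : 0 < r := by positivity
  have hball : Metric.closedBall x₀ r ⊆ K :=
    (Metric.closedBall_subset_ball (by rw [hr]; linarith)).trans (hball0.trans interior_subset)
  obtain ⟨a0, b0, c0, d0, hf0⟩ := exists_feas hHP hK
  set F0 := F a0 b0 c0 d0 with hF0
  set W : Set (P × P × P × P) := {w | Cls w.1 w.2.1 w.2.2.1 w.2.2.2 ∧
    r ^ 2 ≤ F w.1 w.2.1 w.2.2.1 w.2.2.2 ∧ F w.1 w.2.1 w.2.2.1 w.2.2.2 ≤ F0 ∧
    ∀ x ∈ K, 0 ≤ D w.1 w.2.1 x ∧ 0 ≤ D w.2.1 w.2.2.1 x ∧ 0 ≤ D w.2.2.1 w.2.2.2 x ∧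
      0 ≤ D w.2.2.2 w.1 x} with hW
  have hWf : ∀ w ∈ W, Feas K w.1 w.2.1 w.2.2.1 w.2.2.2 := by
    rintro w ⟨h1, h2, h3, h4⟩
    have hpos : 0 < F w.1 w.2.1 w.2.2.1 w.2.2.2 := lt_of_lt_of_le (by positivity) h2
    exact ⟨h1, hpos, fun x hx => (hHP _ _ _ _ h1 hpos x).2 (h4 x hx)⟩
  have hfW : ∀ a b c d : P, Feas K a b c d → F a b c d ≤ F0 → ((a, b, c, d) : P × P × P × P) ∈ W := by
    intro a b c d hf hle
    exact ⟨hf.1, (bd hr0 hball hf).1, hle, fun x hx => (hHP _ _ _ _ hf.1 hf.2.1 x).1 (hf.2.2 hx)⟩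
  have hcF : Continuous (fun w : P × P × P × P => F w.1 w.2.1 w.2.2.1 w.2.2.2) := by
    unfold F cr
    fun_prop
  have hclosed : IsClosed W := by
    have hD : ∀ f g h : P × P × P × P → P, Continuous f → Continuous g → Continuous h →
        IsClosed {w | 0 ≤ D (f w) (g w) (h w)} := by
      intro f g h hf hg hh
      refine isClosed_le continuous_const ?_
      unfold D cr
      fun_prop
    have c1 : IsClosed {w : P × P × P × P | Cls w.1 w.2.1 w.2.2.1 w.2.2.2} := by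
      unfold Cls
      refine IsClosed.inter (hD _ _ _ (by fun_prop) (by fun_prop) (by fun_prop)) ?_
      refine IsClosed.inter (hD _ _ _ (by fun_prop) (by fun_prop) (by fun_prop)) ?_
      exact IsClosed.inter (hD _ _ _ (by fun_prop) (by fun_prop) (by fun_prop))
        (hD _ _ _ (by fun_prop) (by fun_prop) (by fun_prop))
    refine c1.inter ((isClosed_le continuous_const hcF).inter ((isClosed_le hcF
      continuous_const).inter ?_))
    have : {w : P × P × P × P | ∀ x ∈ K, 0 ≤ D w.1 w.2.1 x ∧ 0 ≤ D w.2.1 w.2.2.1 x ∧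
        0 ≤ D w.2.2.1 w.2.2.2 x ∧ 0 ≤ D w.2.2.2 w.1 x} = ⋂ x ∈ K,
        {w : P × P × P × P | 0 ≤ D w.1 w.2.1 x ∧ 0 ≤ D w.2.1 w.2.2.1 x ∧
        0 ≤ D w.2.2.1 w.2.2.2 x ∧ 0 ≤ D w.2.2.2 w.1 x} := by
      ext w
      simp
    show IsClosed {w : P × P × P × P | ∀ x ∈ K, 0 ≤ D w.1 w.2.1 x ∧ 0 ≤ D w.2.1 w.2.2.1 x ∧
        0 ≤ D w.2.2.1 w.2.2.2 x ∧ 0 ≤ D w.2.2.2 w.1 x}
    rw [this]
    refine isClosed_biInter (fun x _ => ?_)
    refine IsClosed.inter (hD _ _ _ (by fun_prop) (by fun_prop) (by fun_prop)) ?_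
    refine IsClosed.inter (hD _ _ _ (by fun_prop) (by fun_prop) (by fun_prop)) ?_
    exact IsClosed.inter (hD _ _ _ (by fun_prop) (by fun_prop) (by fun_prop))
      (hD _ _ _ (by fun_prop) (by fun_prop) (by fun_prop))
  have hbdd : Bornology.IsBounded W := by
    refine Bornology.IsBounded.subset (Metric.isBounded_closedBall
      (x := ((x₀, x₀, x₀, x₀) : P × P × P × P)) (r := 2 * F0 / r)) ?_
    intro w hw
    have hf := hWf w hw
    have hle : F w.1 w.2.1 w.2.2.1 w.2.2.2 ≤ F0 := hw.2.2.1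
    have hb := (bd hr0 hball hf).2
    have hpt : ∀ v ∈ ({w.1, w.2.1, w.2.2.1, w.2.2.2} : Set P), dist v x₀ ≤ 2 * F0 / r := by
      intro v hv
      have h1 := hb v (subset_convexHull ℝ _ hv)
      have h2 : 2 * F w.1 w.2.1 w.2.2.1 w.2.2.2 / r ≤ 2 * F0 / r := by gcongr
      rw [Prod.dist_eq, Real.dist_eq, Real.dist_eq]
      exact max_le (h1.1.trans h2) (h1.2.trans h2)
    rw [Metric.mem_closedBall, Prod.dist_eq, Prod.dist_eq, Prod.dist_eq]
    exact max_le (hpt _ (by simp)) (max_le (hpt _ (by simp)) (max_le (hpt _ (by simp))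
      (hpt _ (by simp))))
  have hcomp : IsCompact W := Metric.isCompact_of_isClosed_isBounded hclosed hbdd
  have hne : W.Nonempty := ⟨_, hfW a0 b0 c0 d0 hf0 le_rfl⟩
  obtain ⟨w, hw, hmin⟩ := hcomp.exists_isMinOn hne hcF.continuousOn
  refine ⟨w.1, w.2.1, w.2.2.1, w.2.2.2, hWf w hw, fun a' b' c' d' hf' => ?_⟩
  by_cases h : F a' b' c' d' ≤ F0
  · exact hmin (hfW a' b' c' d' hf' h)
  · exact hw.2.2.1.trans (le_of_lt (not_le.1 h))

end Pool.Agent.N490.QD.MIN
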