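import Pool.Agent.N490.QD.Stm

/-!
# Project QD: the normalized theorem, case of a point above the square
-/

set_option autoImplicit false
set_option maxHeartbeats 1000000

namespace Pool.Agent.N490.QD.NRMT

open MeasureTheory

theorem D_eq (p q r : P) : D p q r = (q.1 - p.1) * (r.2 - p.2) - (q.2 - p.2) * (r.1 - p.1) := rfl

theorem F_eq (a b c d : P) :
    F a b c d = ((c.1 - a.1) * (d.2 - b.2) - (c.2 - a.2) * (d.1 - b.1)) / 2 := rfl

theorem F_D (a b c d : P) : 2 * F a b c d = D a b c + D c d a := by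
  rw [F_eq, D_eq, D_eq]
  ring

theorem str_rot {a b c d : P} (h : Str a b c d) : Str b c d a := ⟨h.2.1, h.2.2.1, h.2.2.2, h.1⟩

theorem F_rot (a b c d : P) : F b c d a = F a b c d := by
  rw [F_eq, F_eq]
  ring

theorem hull_rot (a b c d : P) : hull b c d a = hull a b c d := by
  unfold hull
  congr 1
  ext x
  simp only [Set.mem_insert_iff, Set.mem_singleton_iff]
  tauto

theorem str_cls {a b c d : P} (h : Str a b c d) : Cls a b c d :=
  ⟨h.1.le, h.2.1.le, h.2.2.1.le, h.2.2.2.le⟩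

theorem str_F {a b c d : P} (h : Str a b c d) : 0 < F a b c d := by
  have := F_D a b c d
  have h1 := h.1
  have h2 := h.2.2.1
  linarith

/-- midpoints of the sides of a minimal quadrilateral -/
theorem mid (hVAR : S_VAR) {K : Set P} (hKc : IsCompact K) (hKx : Convex ℝ K)
    (hmin : ∀ a b c d : P, Feas K a b c d → 8 ≤ F a b c d) (a b c d : P) (hS : Str a b c d)
    (hK : K ⊆ hull a b c d) (hF : F a b c d ≤ 8) : ((1 / 2 : ℝ) • (a + b)) ∈ K := by
  by_contra hcon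
  obtain ⟨a', b', h1, h2, h3⟩ := hVAR K hKc hKx a b c d hS hK hcon
  have := hmin a' b' c d ⟨str_cls h1, str_F h1, h2⟩
  linarith

/-- all four midpoints -/
theorem mids (hVAR : S_VAR) {K : Set P} (hKc : IsCompact K) (hKx : Convex ℝ K)
    (hmin : ∀ a b c d : P, Feas K a b c d → 8 ≤ F a b c d) (a b c d : P) (hS : Str a b c d)
    (hK : K ⊆ hull a b c d) (hF : F a b c d ≤ 8) :
    ((1 / 2 : ℝ) • (a + b)) ∈ K ∧ ((1 / 2 : ℝ) • (b + c)) ∈ K ∧ ((1 / 2 : ℝ) • (c + d)) ∈ K ∧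
      ((1 / 2 : ℝ) • (d + a)) ∈ K := by
  refine ⟨mid hVAR hKc hKx hmin a b c d hS hK hF,
    mid hVAR hKc hKx hmin b c d a (str_rot hS) (by rw [hull_rot]; exact hK)
      (by rw [F_rot]; exact hF),
    mid hVAR hKc hKx hmin c d a b (str_rot (str_rot hS)) (by rw [hull_rot, hull_rot]; exact hK)
      (by rw [F_rot, F_rot]; exact hF),
    mid hVAR hKc hKx hmin d a b c (str_rot (str_rot (str_rot hS)))
      (by rw [hull_rot, hull_rot, hull_rot]; exact hK) (by rw [F_rot, F_rot, F_rot]; exact hF)⟩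

theorem half_convex (u v c : ℝ) : Convex ℝ {x : P | u * x.1 + v * x.2 ≤ c} := by
  intro x hx y hy a b ha hb hab
  simp only [Set.mem_ofPred_eq, Prod.fst_add, Prod.smul_fst, smul_eq_mul, Prod.snd_add,
    Prod.smul_snd] at hx hy ⊢
  have h1 := mul_le_mul_of_nonneg_left hx ha
  have h2 := mul_le_mul_of_nonneg_left hy hb
  have h3 : a * c + b * c = c := by rw [← add_mul, hab, one_mul]
  nlinarith

theorem sq_hull : Sq = convexHull ℝ (({-1, 1} : Set ℝ) ×ˢ ({-1, 1} : Set ℝ)) := by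
  have h1 : Sq = Set.Icc (-1 : ℝ) 1 ×ˢ Set.Icc (-1 : ℝ) 1 := by
    ext x
    simp only [Sq, Set.mem_ofPred_eq, Set.mem_prod, Set.mem_Icc]
    tauto
  rw [convexHull_prod, convexHull_pair, segment_eq_Icc (by norm_num)]
  exact h1

theorem oct_cpt (S : Set P) (hS : S.Finite) : IsCompact (convexHull ℝ (Sq ∪ S)) := by
  rw [sq_hull, convexHull_convexHull_union_left]
  refine Set.Finite.isCompact_convexHull ℝ ?_
  exact ((Set.toFinite _).prod (Set.toFinite _)).union hS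

theorem sq_int : (interior Sq).Nonempty := by
  refine ⟨(0, 0), ?_⟩
  rw [mem_interior]
  refine ⟨Set.Ioo (-1 : ℝ) 1 ×ˢ Set.Ioo (-1 : ℝ) 1, ?_, isOpen_Ioo.prod isOpen_Ioo, ?_⟩
  · rintro x ⟨⟨h1, h2⟩, h3, h4⟩
    exact ⟨h1.le, h2.le, h3.le, h4.le⟩
  · simp

/-- the final contradiction -/
theorem final {K : Set P} {xm xp ym yp t1 t2 δ : ℝ} (hδ : 0 < δ) (hx1 : xm ≤ -1) (hx2 : 1 ≤ xp)
    (hX : xp = xm + 2 * √2) (ht1 : t1 = xm + √2) (hy1 : ym = t2 - √2) (hy2 : yp = t2 + √2)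
    (hKO : K ⊆ convexHull ℝ (Sq ∪ {((t1, yp) : P), (xp, t2), (t1, ym), (xm, t2)}))
    (hm1 : ((xp, t2 + δ) : P) ∈ K) (hm2 : ((xm, t2 - δ) : P) ∈ K) : False := by
  have h2 : (1 : ℝ) < √2 := by
    rw [Real.lt_sqrt (by norm_num)]
    norm_num
  have hcase : xm < -1 ∨ 1 < xp := by
    by_contra hcon
    push Not at hcon
    obtain ⟨a1, a2⟩ := hcon
    linarith
  rcases hcase with hc | hc
  · obtain ⟨κ, hκ1, hκ2⟩ : ∃ κ : ℝ, 1 ≤ κ ∧ t2 + 1 ≤ κ * (-1 - xm) := by
      refine ⟨max 1 ((t2 + 1) / (-1 - xm)), le_max_left _ _, ?_⟩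
      have h3 : 0 < -1 - xm := by linarith
      have h4 := mul_le_mul_of_nonneg_right (le_max_right 1 ((t2 + 1) / (-1 - xm))) h3.le
      rwa [div_mul_cancel₀ _ h3.ne'] at h4
    have hO : convexHull ℝ (Sq ∪ {((t1, yp) : P), (xp, t2), (t1, ym), (xm, t2)}) ⊆
        {x : P | -κ * x.1 + -1 * x.2 ≤ -t2 - κ * xm} := by
      refine convexHull_min ?_ (half_convex _ _ _)
      rintro x (⟨h5, h6, h7, h8⟩ | hx)
      · show -κ * x.1 + -1 * x.2 ≤ -t2 - κ * xm
        have : κ * (-1) ≤ κ * x.1 := mul_le_mul_of_nonneg_left h5 (by linarith)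
        nlinarith
      · simp only [Set.mem_insert_iff, Set.mem_singleton_iff] at hx
        rcases hx with rfl | rfl | rfl | rfl
        · show -κ * t1 + -1 * yp ≤ -t2 - κ * xm
          rw [ht1, hy2]
          nlinarith
        · show -κ * xp + -1 * t2 ≤ -t2 - κ * xm
          rw [hX]
          nlinarith
        · show -κ * t1 + -1 * ym ≤ -t2 - κ * xm
          rw [ht1, hy1]
          nlinarith
        · show -κ * xm + -1 * t2 ≤ -t2 - κ * xm
          linarith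
    have h5 := hO (hKO hm2)
    have h6 : -κ * xm + -1 * (t2 - δ) ≤ -t2 - κ * xm := h5
    linarith
  · obtain ⟨κ, hκ1, hκ2⟩ : ∃ κ : ℝ, 1 ≤ κ ∧ 1 - t2 ≤ κ * (xp - 1) := by
      refine ⟨max 1 ((1 - t2) / (xp - 1)), le_max_left _ _, ?_⟩
      have h3 : 0 < xp - 1 := by linarith
      have h4 := mul_le_mul_of_nonneg_right (le_max_right 1 ((1 - t2) / (xp - 1))) h3.le
      rwa [div_mul_cancel₀ _ h3.ne'] at h4
    have hO : convexHull ℝ (Sq ∪ {((t1, yp) : P), (xp, t2), (t1, ym), (xm, t2)}) ⊆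
        {x : P | κ * x.1 + 1 * x.2 ≤ t2 + κ * xp} := by
      refine convexHull_min ?_ (half_convex _ _ _)
      rintro x (⟨h5, h6, h7, h8⟩ | hx)
      · show κ * x.1 + 1 * x.2 ≤ t2 + κ * xp
        have : κ * x.1 ≤ κ * 1 := mul_le_mul_of_nonneg_left h6 (by linarith)
        nlinarith
      · simp only [Set.mem_insert_iff, Set.mem_singleton_iff] at hx
        rcases hx with rfl | rfl | rfl | rfl
        · show κ * t1 + 1 * yp ≤ t2 + κ * xp
          rw [ht1, hX, hy2]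
          nlinarith
        · show κ * xp + 1 * t2 ≤ t2 + κ * xp
          linarith
        · show κ * t1 + 1 * ym ≤ t2 + κ * xp
          rw [ht1, hX, hy1]
          nlinarith
        · show κ * xm + 1 * t2 ≤ t2 + κ * xp
          rw [hX]
          nlinarith
    have h5 := hO (hKO hm1)
    have h6 : κ * xp + 1 * (t2 + δ) ≤ t2 + κ * xp := h5
    linarith

theorem t_NRMT : S_NRMT := by
  intro hHP hVAR hCAPS hEQS K hKc hKx hSqK hvol hz
  by_contra hcon
  have hmin : ∀ a b c d : P, Feas K a b c d → 8 ≤ F a b c d := by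
    intro a b c d h
    by_contra h8
    exact hcon ⟨a, b, c, d, h, not_le.1 h8⟩
  obtain ⟨z, hzK, hz1⟩ := hz
  have hne : K.Nonempty := ⟨z, hzK⟩
  obtain ⟨z1, hz1K, hmax1⟩ := hKc.exists_isMaxOn hne (continuous_snd.continuousOn (s := K))
  obtain ⟨z2, hz2K, hmax2⟩ := hKc.exists_isMaxOn hne (continuous_fst.continuousOn (s := K))
  obtain ⟨z3, hz3K, hmin3⟩ := hKc.exists_isMinOn hne (continuous_snd.continuousOn (s := K))
  obtain ⟨z4, hz4K, hmin4⟩ := hKc.exists_isMinOn hne (continuous_fst.continuousOn (s := K))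
  obtain ⟨yp, hyp⟩ : ∃ t : ℝ, t = z1.2 := ⟨_, rfl⟩
  obtain ⟨xp, hxp⟩ : ∃ t : ℝ, t = z2.1 := ⟨_, rfl⟩
  obtain ⟨ym, hym⟩ : ∃ t : ℝ, t = z3.2 := ⟨_, rfl⟩
  obtain ⟨xm, hxm⟩ : ∃ t : ℝ, t = z4.1 := ⟨_, rfl⟩
  have hK1 : ∀ x ∈ K, x.2 ≤ yp := fun x hx => hyp ▸ hmax1 hx
  have hK2 : ∀ x ∈ K, x.1 ≤ xp := fun x hx => hxp ▸ hmax2 hx
  have hK3 : ∀ x ∈ K, ym ≤ x.2 := fun x hx => hym ▸ hmin3 hx
  have hK4 : ∀ x ∈ K, xm ≤ x.1 := fun x hx => hxm ▸ hmin4 hx
  have hc1 : ((1, 1) : P) ∈ K := hSqK (by simp [Sq])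
  have hc2 : ((-1, -1) : P) ∈ K := hSqK (by simp [Sq])
  have byp : 1 < yp := lt_of_lt_of_le hz1 (hK1 z hzK)
  have bxp : 1 ≤ xp := hK2 _ hc1
  have bym : ym ≤ -1 := hK3 _ hc2
  have bxm : xm ≤ -1 := hK4 _ hc2
  have s2 : √2 * √2 = 2 := Real.mul_self_sqrt (by norm_num)
  have s1 : (1 : ℝ) < √2 := by
    rw [Real.lt_sqrt (by norm_num)]
    norm_num
  have s3 : √2 ≤ 2 := by
    rw [Real.sqrt_le_left (by norm_num)]
    norm_num
  -- CAPS for K
  have hcaps := hCAPS K hKx hSqK (yp - 1) (xp - 1) (-1 - ym) (-1 - xm) z1.1 z2.2 z3.1 z4.2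
    (by linarith) (by linarith) (by linarith) (by linarith)
    (by have := hK4 z1 hz1K; linarith) (by have := hK2 z1 hz1K; linarith)
    (by have := hK3 z2 hz2K; linarith) (by have := hK1 z2 hz2K; linarith)
    (by have := hK4 z3 hz3K; linarith) (by have := hK2 z3 hz3K; linarith)
    (by have := hK3 z4 hz4K; linarith) (by have := hK1 z4 hz4K; linarith)
    (by
      have : ((z1.1, 1 + (yp - 1)) : P) = z1 := by
        rw [hyp]; ext <;> simp
      rw [this]; exact hz1K)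
    (by
      have : ((1 + (xp - 1), z2.2) : P) = z2 := by
        rw [hxp]; ext <;> simp
      rw [this]; exact hz2K)
    (by
      have : ((z3.1, -1 - (-1 - ym)) : P) = z3 := by
        rw [hym]; ext <;> simp
      rw [this]; exact hz3K)
    (by
      have : ((-1 - (-1 - xm), z4.2) : P) = z4 := by
        rw [hxm]; ext <;> simp
      rw [this]; exact hz4K)
  have hsum : (xp - xm) + (yp - ym) ≤ 4 * √2 := by
    have h1 := hcaps.trans hvol
    rw [ENNReal.ofReal_le_ofReal_iff (by positivity)] at h1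
    linarith
  -- the rectangle
  have hStr : Str ((xm, ym) : P) (xp, ym) (xp, yp) (xm, yp) := by
    have hX : 0 < xp - xm := by linarith
    have hY : 0 < yp - ym := by linarith
    have := mul_pos hX hY
    refine ⟨?_, ?_, ?_, ?_⟩ <;> rw [D_eq] <;> dsimp only <;> nlinarith
  have hFR : F ((xm, ym) : P) (xp, ym) (xp, yp) (xm, yp) = (xp - xm) * (yp - ym) := by
    rw [F_eq]
    ring
  have hKR : K ⊆ hull ((xm, ym) : P) (xp, ym) (xp, yp) (xm, yp) := by
    intro x hx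
    rw [hHP _ _ _ _ (str_cls hStr) (str_F hStr)]
    have a1 := hK1 x hx
    have a2 := hK2 x hx
    have a3 := hK3 x hx
    have a4 := hK4 x hx
    have hX : 0 < xp - xm := by linarith
    have hY : 0 < yp - ym := by linarith
    refine ⟨?_, ?_, ?_, ?_⟩ <;> rw [D_eq] <;> dsimp only
    · nlinarith [mul_nonneg hX.le (sub_nonneg.2 a3)]
    · nlinarith [mul_nonneg hY.le (sub_nonneg.2 a2)]
    · nlinarith [mul_nonneg hX.le (sub_nonneg.2 a1)]
    · nlinarith [mul_nonneg hY.le (sub_nonneg.2 a4)]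
  have h8 : 8 ≤ (xp - xm) * (yp - ym) := by
    rw [← hFR]
    exact hmin _ _ _ _ ⟨str_cls hStr, str_F hStr, hKR⟩
  have hXe : xp - xm = 2 * √2 ∧ yp - ym = 2 * √2 := by
    obtain ⟨X, hX⟩ : ∃ X : ℝ, X = xp - xm := ⟨_, rfl⟩
    obtain ⟨Y, hY⟩ : ∃ Y : ℝ, Y = yp - ym := ⟨_, rfl⟩
    rw [← hX, ← hY] at h8 hsum ⊢
    have hXY : 0 < X + Y := by rw [hX, hY]; linarith
    have e1 : (X + Y) ^ 2 ≤ 32 := by nlinarith
    have e2 : (X - Y) ^ 2 ≤ 0 := by nlinarith
    have e3 : X - Y = 0 := by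
      have : (X - Y) ^ 2 = 0 := le_antisymm e2 (sq_nonneg _)
      exact pow_eq_zero_iff (two_ne_zero) |>.1 this
    have e4 : X = Y := by linarith
    rw [← e4] at h8 hsum ⊢
    have hX0 : 0 < X := by linarith
    have e5 : X = 2 * √2 := by
      refine le_antisymm (by linarith) ?_
      by_contra hlt
      push Not at hlt
      nlinarith
    exact ⟨e5, e5⟩
  obtain ⟨hXe, hYe⟩ := hXe
  have hFR8 : F ((xm, ym) : P) (xp, ym) (xp, yp) (xm, yp) ≤ 8 := by
    rw [hFR, hXe, hYe]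
    nlinarith
  obtain ⟨m1, m2, m3, m4⟩ := mids hVAR hKc hKx hmin _ _ _ _ hStr hKR hFR8
  obtain ⟨t1, ht1⟩ : ∃ t : ℝ, t = (xm + xp) / 2 := ⟨_, rfl⟩
  obtain ⟨t2, ht2⟩ : ∃ t : ℝ, t = (ym + yp) / 2 := ⟨_, rfl⟩
  have e1 : ((1 / 2 : ℝ) • (((xm, ym) : P) + (xp, ym))) = (t1, ym) := by
    rw [ht1]
    ext
    · simp; ring
    · simp; ring
  have e2 : ((1 / 2 : ℝ) • (((xp, ym) : P) + (xp, yp))) = (xp, t2) := by
    rw [ht2]
    ext
    · simp; ring
    · simp; ring
  have e3 : ((1 / 2 : ℝ) • (((xp, yp) : P) + (xm, yp))) = (t1, yp) := by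
    rw [ht1]
    ext
    · simp; ring
    · simp; ring
  have e4 : ((1 / 2 : ℝ) • (((xm, yp) : P) + (xm, ym))) = (xm, t2) := by
    rw [ht2]
    ext
    · simp; ring
    · simp; ring
  rw [e1] at m1
  rw [e2] at m2
  rw [e3] at m3
  rw [e4] at m4
  have f1 : t1 = xm + √2 := by rw [ht1]; linarith
  have f2 : xp = xm + 2 * √2 := by linarith
  have f3 : ym = t2 - √2 := by rw [ht2]; linarith
  have f4 : yp = t2 + √2 := by rw [ht2]; linarith
  -- the octagon
  obtain ⟨G, hG⟩ : ∃ G : Set P, G = Sq ∪ {((t1, yp) : P), (xp, t2), (t1, ym), (xm, t2)} :=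
    ⟨_, rfl⟩
  have hGK : G ⊆ K := by
    rw [hG]
    rintro x (hx | hx)
    · exact hSqK hx
    · simp only [Set.mem_insert_iff, Set.mem_singleton_iff] at hx
      rcases hx with rfl | rfl | rfl | rfl
      · exact m3
      · exact m2
      · exact m1
      · exact m4
  have hOc : IsCompact (convexHull ℝ G) := by
    rw [hG]
    exact oct_cpt _ (Set.toFinite _)
  have hOK : convexHull ℝ G ⊆ K := convexHull_min hGK hKx
  have hmem : ∀ x ∈ ({((t1, yp) : P), (xp, t2), (t1, ym), (xm, t2)} : Set P),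
      x ∈ convexHull ℝ G := fun x hx => subset_convexHull ℝ G (by rw [hG]; exact Or.inr hx)
  have hcO := hCAPS (convexHull ℝ G) (convex_convexHull ℝ G)
    (fun x hx => subset_convexHull ℝ G (by rw [hG]; exact Or.inl hx))
    (yp - 1) (xp - 1) (-1 - ym) (-1 - xm) t1 t2 t1 t2
    (by linarith) (by linarith) (by linarith) (by linarith) (by linarith) (by linarith)
    (by linarith) (by linarith) (by linarith) (by linarith) (by linarith) (by linarith)
    (hmem _ (by simp)) (hmem _ (by simp)) (hmem _ (by simp)) (hmem _ (by simp))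
  have hvO : volume K ≤ volume (convexHull ℝ G) := by
    refine hvol.trans (le_trans (le_of_eq ?_) hcO)
    congr 1
    linarith
  have hKO : K ⊆ convexHull ℝ G := hEQS K (convexHull ℝ G) hKx
    (sq_int.mono (interior_mono hSqK)) hOc.isClosed hOK hOc.measure_ne_top hvO
  -- the tilted quadrilateral
  obtain ⟨δ, hδ0, hδ1, hδ2⟩ : ∃ δ : ℝ, 0 < δ ∧ δ ≤ 1 / 4 ∧ 2 * δ ≤ yp - 1 := by
    refine ⟨min (yp - 1) 1 / 4, ?_, ?_, ?_⟩
    · have : 0 < min (yp - 1) 1 := lt_min (by linarith) one_pos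
      linarith
    · have : min (yp - 1) 1 ≤ 1 := min_le_right _ _
      linarith
    · have : min (yp - 1) 1 ≤ yp - 1 := min_le_left _ _
      linarith
  have hδs : δ * √2 < 1 := by nlinarith
  have hδs0 : 0 < δ * √2 := by positivity
  have hH : convexHull ℝ G ⊆ {x : P | -δ * x.1 + 1 * x.2 ≤ yp - δ * t1} := by
    refine convexHull_min ?_ (half_convex _ _ _)
    rw [hG]
    rintro x (⟨h5, h6, h7, h9⟩ | hx)
    · show -δ * x.1 + 1 * x.2 ≤ yp - δ * t1
      have b1 : t1 ≤ 1 := by linarith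
      have b2 : δ * t1 ≤ δ * 1 := mul_le_mul_of_nonneg_left b1 hδ0.le
      have b3 : δ * (-1) ≤ δ * x.1 := mul_le_mul_of_nonneg_left h5 hδ0.le
      linarith
    · simp only [Set.mem_insert_iff, Set.mem_singleton_iff] at hx
      rcases hx with rfl | rfl | rfl | rfl
      · show -δ * t1 + 1 * yp ≤ yp - δ * t1
        linarith
      · show -δ * xp + 1 * t2 ≤ yp - δ * t1
        rw [f1, f2, f4]
        linarith
      · show -δ * t1 + 1 * ym ≤ yp - δ * t1
        linarith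
      · show -δ * xm + 1 * t2 ≤ yp - δ * t1
        rw [f1, f4]
        linarith
  have hY : 0 < yp - ym := by linarith
  have hX : 0 < xp - xm := by linarith
  have hYd : 0 < yp - ym - δ * √2 := by rw [hYe]; linarith
  have hStr' : Str ((xm, ym) : P) (xp, ym) (xp, yp + δ * √2) (xm, yp - δ * √2) := by
    have g1 := mul_pos hX (show 0 < yp - ym + δ * √2 by linarith)
    have g2 := mul_pos hX hYd
    refine ⟨?_, ?_, ?_, ?_⟩ <;> rw [D_eq] <;> dsimp only
    · exact lt_of_lt_of_eq g1 (by ring)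
    · exact lt_of_lt_of_eq g1 (by ring)
    · exact lt_of_lt_of_eq g2 (by ring)
    · exact lt_of_lt_of_eq g2 (by ring)
  have hF' : F ((xm, ym) : P) (xp, ym) (xp, yp + δ * √2) (xm, yp - δ * √2) ≤ 8 := by
    have : F ((xm, ym) : P) (xp, ym) (xp, yp + δ * √2) (xm, yp - δ * √2) =
        (xp - xm) * (yp - ym) := by
      rw [F_eq]
      ring
    rw [this, hXe, hYe]
    nlinarith
  have hK' : K ⊆ hull ((xm, ym) : P) (xp, ym) (xp, yp + δ * √2) (xm, yp - δ * √2) := by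
    intro x hx
    rw [hHP _ _ _ _ (str_cls hStr') (str_F hStr')]
    have a2 := hK2 x hx
    have a3 := hK3 x hx
    have a4 := hK4 x hx
    have a5 : -δ * x.1 + 1 * x.2 ≤ yp - δ * t1 := hH (hKO hx)
    refine ⟨?_, ?_, ?_, ?_⟩ <;> rw [D_eq] <;> dsimp only
    · exact le_of_le_of_eq (mul_nonneg hX.le (sub_nonneg.2 a3)) (by ring)
    · exact le_of_le_of_eq
        (mul_nonneg (show 0 ≤ yp - ym + δ * √2 by linarith) (sub_nonneg.2 a2)) (by ring)
    · have a6 : 0 ≤ yp - δ * t1 + δ * x.1 - x.2 := by linarith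
      have a7 := mul_nonneg (show (0 : ℝ) ≤ 2 * √2 by positivity) a6
      rw [f1] at a7
      rw [f2]
      exact le_of_le_of_eq a7 (by ring)
    · exact le_of_le_of_eq (mul_nonneg hYd.le (sub_nonneg.2 a4)) (by ring)
  obtain ⟨-, n2, -, n4⟩ := mids hVAR hKc hKx hmin _ _ _ _ hStr' hK' hF'
  have e5 : ((1 / 2 : ℝ) • (((xp, ym) : P) + (xp, yp + δ * √2))) = (xp, t2 + δ * √2 / 2) := by
    rw [ht2]
    ext
    · simp; ring
    · simp; ring
  have e6 : ((1 / 2 : ℝ) • (((xm, yp - δ * √2) : P) + (xm, ym))) = (xm, t2 - δ * √2 / 2) := by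
    rw [ht2]
    ext
    · simp; ring
    · simp; ring
  rw [e5] at n2
  rw [e6] at n4
  rw [hG] at hKO
  exact final (half_pos hδs0) bxm bxp f2 f1 f3 f4 hKO n2 n4

end Pool.Agent.N490.QD.NRMT
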