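import Pool.Agent.N490.QD.Stm

/-!
# Project QD: strict inequality for every convex body
-/

set_option autoImplicit false

namespace Pool.Agent.N490.QD.STR

open MeasureTheory Pool.Agent.N490.QD

theorem D_add (a b c d : P) : D a b c + D c d a = 2 * F a b c d := by
  simp only [D, F, cr, Prod.fst_sub, Prod.snd_sub]; ring

theorem D_add' (a b c d : P) : D b c d + D d a b = 2 * F a b c d := by
  simp only [D, F, cr, Prod.fst_sub, Prod.snd_sub]; ring

theorem F_cyc (a b c d : P) : F b c d a = F a b c d := by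
  simp only [F, cr, Prod.fst_sub, Prod.snd_sub]; ring

theorem hull_cyc (a b c d : P) : hull b c d a = hull a b c d := by
  unfold hull
  congr 1
  ext x
  simp only [Set.mem_insert_iff, Set.mem_singleton_iff]
  tauto

theorem feas_cyc {K : Set P} {a b c d : P} (h : Feas K a b c d) : Feas K b c d a :=
  ⟨⟨h.1.2.1, h.1.2.2.1, h.1.2.2.2, h.1.1⟩, by rw [F_cyc]; exact h.2.1,
    by rw [hull_cyc]; exact h.2.2⟩

theorem feas_of_str {K : Set P} {a b c d : P} (h : Str a b c d) (hK : K ⊆ hull a b c d) :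
    Feas K a b c d := by
  obtain ⟨h1, h2, h3, h4⟩ := h
  refine ⟨⟨h1.le, h2.le, h3.le, h4.le⟩, ?_, hK⟩
  have := D_add a b c d
  linarith

/-- a circumscribed quadrilateral of minimal area -/
def MinT (K : Set P) (a b c d : P) : Prop :=
  Feas K a b c d ∧ ∀ a' b' c' d' : P, Feas K a' b' c' d' → F a b c d ≤ F a' b' c' d'

theorem minT_cyc {K : Set P} {a b c d : P} (h : MinT K a b c d) : MinT K b c d a :=
  ⟨feas_cyc h.1, fun a' b' c' d' h' => by rw [F_cyc]; exact h.2 a' b' c' d' h'⟩

theorem step1 (hCUT : S_CUT) {K : Set P} (hK : IsCompact K) (hc : Convex ℝ K) {a b c d : P}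
    (h : MinT K a b c d) (hV : (volume K).toReal < F a b c d) : 0 < D a b c := by
  rcases h.1.1.1.eq_or_lt with h0 | h0
  · exfalso
    have hF := h.1.2.1
    have h1 : D c d a = 2 * F a b c d := by
      have := D_add a b c d
      linarith
    have h2 := D_add' a b c d
    have hb : b = (D b c d / (2 * F a b c d)) • a + (D d a b / (2 * F a b c d)) • c := by
      have h3 : D b c d • a + D d a b • c = D c d a • b + D a b c • d := by
        ext
        · simp only [D, cr, Prod.fst_sub, Prod.snd_sub, Prod.fst_add, Prod.smul_fst, smul_eq_mul]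
          ring
        · simp only [D, cr, Prod.fst_sub, Prod.snd_sub, Prod.snd_add, Prod.smul_snd, smul_eq_mul]
          ring
      rw [← h0, zero_smul, add_zero, h1] at h3
      have h4 : b = (2 * F a b c d)⁻¹ • ((2 * F a b c d) • b) := by
        rw [smul_smul, inv_mul_cancel₀ (by positivity), one_smul]
      rw [← h3, smul_add, smul_smul, smul_smul] at h4
      rw [div_eq_inv_mul, div_eq_inv_mul]
      exact h4
    have hsub : hull a b c d ⊆ convexHull ℝ {c, d, a} := by
      unfold hull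
      refine convexHull_min ?_ (convex_convexHull ℝ _)
      have ha' : a ∈ convexHull ℝ ({c, d, a} : Set P) := subset_convexHull ℝ _ (by simp)
      have hc' : c ∈ convexHull ℝ ({c, d, a} : Set P) := subset_convexHull ℝ _ (by simp)
      have hd' : d ∈ convexHull ℝ ({c, d, a} : Set P) := subset_convexHull ℝ _ (by simp)
      have hb' : b ∈ convexHull ℝ ({c, d, a} : Set P) := by
        rw [hb]
        refine (convex_convexHull ℝ _) ha' hc' ?_ ?_ ?_
        · exact div_nonneg h.1.1.2.1 (by positivity)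
        · exact div_nonneg h.1.1.2.2.2 (by positivity)
        · rw [← add_div, h2, div_self (by positivity)]
      intro x hx
      simp only [Set.mem_insert_iff, Set.mem_singleton_iff] at hx
      rcases hx with rfl | rfl | rfl | rfl
      · exact ha'
      · exact hb'
      · exact hc'
      · exact hd'
    have hnot : ¬ (convexHull ℝ {c, d, a} ⊆ K) := by
      intro hcon
      have h3 := measure_mono (μ := volume) hcon
      rw [Pool.Agent.Helper484.Crit.FG.volume_triangle] at h3
      have h4 : Pool.Agent.Helper484.Crit.cr (d - c) (a - c) = 2 * F a b c d := by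
        rw [← h1]
        rfl
      rw [h4, abs_of_pos (by positivity), mul_div_cancel_left₀ _ (by norm_num : (2 : ℝ) ≠ 0)] at h3
      have h5 : F a b c d ≤ (volume K).toReal := by
        rw [← ENNReal.toReal_ofReal hF.le]
        exact ENNReal.toReal_mono hK.measure_lt_top.ne h3
      linarith
    obtain ⟨a', b', c', d', hs, hsub', hlt⟩ := hCUT K hK.isClosed hc c d a (by rw [h1]; positivity)
      (h.1.2.2.trans hsub) hnot
    have h3 := h.2 a' b' c' d' (feas_of_str hs hsub')
    rw [h1] at hlt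
    linarith
  · exact h0

theorem step2 (hVAR : S_VAR) {K : Set P} (hK : IsCompact K) (hc : Convex ℝ K) {a b c d : P}
    (h : MinT K a b c d) (hs : Str a b c d) : ((1 / 2 : ℝ) • (a + b)) ∈ K := by
  by_contra hcon
  obtain ⟨a', b', h1, h2, h3⟩ := hVAR K hK hc a b c d hs h.1.2.2 hcon
  have h4 := h.2 a' b' c d (feas_of_str h1 h2)
  linarith

theorem D_aff (o e g p q r : P) :
    D (Aff o e g p) (Aff o e g q) (Aff o e g r) = cr e g * D p q r := by
  simp only [D, Aff, cr, Prod.fst_sub, Prod.snd_sub, Prod.fst_add, Prod.snd_add, Prod.smul_fst,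
    Prod.smul_snd, smul_eq_mul]
  ring

theorem F_aff (o e g a b c d : P) :
    F (Aff o e g a) (Aff o e g b) (Aff o e g c) (Aff o e g d) = cr e g * F a b c d := by
  simp only [F, Aff, cr, Prod.fst_sub, Prod.snd_sub, Prod.fst_add, Prod.snd_add, Prod.smul_fst,
    Prod.smul_snd, smul_eq_mul]
  ring

/-- the inverse of `Aff` -/
noncomputable def G (o e g : P) (y : P) : P := (cr (y - o) g / cr e g, cr e (y - o) / cr e g)

theorem aff_G {o e g : P} (h : cr e g ≠ 0) (y : P) : Aff o e g (G o e g y) = y := by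
  have h1 : cr (y - o) g * e.1 + cr e (y - o) * g.1 = cr e g * (y.1 - o.1) := by
    simp only [cr, Prod.fst_sub, Prod.snd_sub]
    ring
  have h2 : cr (y - o) g * e.2 + cr e (y - o) * g.2 = cr e g * (y.2 - o.2) := by
    simp only [cr, Prod.fst_sub, Prod.snd_sub]
    ring
  ext
  · simp only [G, Aff, Prod.fst_add, Prod.smul_fst, smul_eq_mul]
    rw [div_mul_eq_mul_div, div_mul_eq_mul_div, add_assoc, ← add_div, h1,
      mul_div_cancel_left₀ _ h]
    ring
  · simp only [G, Aff, Prod.snd_add, Prod.smul_snd, smul_eq_mul]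
    rw [div_mul_eq_mul_div, div_mul_eq_mul_div, add_assoc, ← add_div, h2,
      mul_div_cancel_left₀ _ h]
    ring

theorem G_aff {o e g : P} (h : cr e g ≠ 0) (x : P) : G o e g (Aff o e g x) = x := by
  ext
  · show cr (Aff o e g x - o) g / cr e g = x.1
    rw [div_eq_iff h]
    simp only [Aff, cr, Prod.fst_sub, Prod.snd_sub, Prod.fst_add, Prod.snd_add, Prod.smul_fst,
      Prod.smul_snd, smul_eq_mul]
    ring
  · show cr e (Aff o e g x - o) / cr e g = x.2
    rw [div_eq_iff h]
    simp only [Aff, cr, Prod.fst_sub, Prod.snd_sub, Prod.fst_add, Prod.snd_add, Prod.smul_fst,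
      Prod.smul_snd, smul_eq_mul]
    ring

theorem G_cont (o e g : P) : Continuous (G o e g) := by
  unfold G cr
  fun_prop

theorem aff_comb (o e g x y : P) {s t : ℝ} (hst : s + t = 1) :
    Aff o e g (s • x + t • y) = s • Aff o e g x + t • Aff o e g y := by
  have ht : t = 1 - s := by linarith
  subst ht
  ext
  · simp only [Aff, Prod.fst_add, Prod.snd_add, Prod.smul_fst, Prod.smul_snd, smul_eq_mul]
    ring
  · simp only [Aff, Prod.fst_add, Prod.snd_add, Prod.smul_fst, Prod.smul_snd, smul_eq_mul]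
    ring

theorem aff_conv {K : Set P} (hc : Convex ℝ K) (o e g : P) : Convex ℝ (Aff o e g ⁻¹' K) := by
  intro x hx y hy s t hs ht hst
  show Aff o e g (s • x + t • y) ∈ K
  rw [aff_comb o e g x y hst]
  exact hc hx hy hs ht hst

theorem aff_hull (o e g a b c d : P) :
    hull a b c d ⊆ Aff o e g ⁻¹' hull (Aff o e g a) (Aff o e g b) (Aff o e g c) (Aff o e g d) := by
  unfold hull
  refine convexHull_min ?_ (aff_conv (convex_convexHull ℝ _) o e g)
  intro x hx
  simp only [Set.mem_insert_iff, Set.mem_singleton_iff] at hx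
  refine subset_convexHull ℝ _ ?_
  rcases hx with rfl | rfl | rfl | rfl <;> simp

theorem t_STR : S_HP → S_AFV → S_MIN → S_CUT → S_VAR → S_NRM → S_STR := by
  intro _ hAFV hMIN hCUT hVAR hNRM K hK hc hint
  have hVpos : 0 < (volume K).toReal := by
    refine ENNReal.toReal_pos ?_ hK.measure_lt_top.ne
    have h1 : 0 < volume (interior K) := isOpen_interior.measure_pos volume hint
    exact (h1.trans_le (measure_mono interior_subset)).ne'
  set V := (volume K).toReal with hV
  obtain ⟨a, b, c, d, hfeas, hmin⟩ := hMIN K hK hc hint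
  by_cases hlt : F a b c d < √2 * V
  · exact ⟨a, b, c, d, hfeas, hlt⟩
  exfalso
  rw [not_lt] at hlt
  have hs2 : 1 < √2 := by
    rw [Real.lt_sqrt (by norm_num)]
    norm_num
  have hVF : V < F a b c d := by nlinarith
  have hm : MinT K a b c d := ⟨hfeas, hmin⟩
  have hm2 := minT_cyc hm
  have hm3 := minT_cyc hm2
  have hm4 := minT_cyc hm3
  have f2 := F_cyc a b c d
  have f3 := F_cyc b c d a
  have f4 := F_cyc c d a b
  have d1 := step1 hCUT hK hc hm hVF
  have d2 := step1 hCUT hK hc hm2 (by rw [f2]; exact hVF)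
  have d3 := step1 hCUT hK hc hm3 (by rw [f3, f2]; exact hVF)
  have d4 := step1 hCUT hK hc hm4 (by rw [f4, f3, f2]; exact hVF)
  have m1 := step2 hVAR hK hc hm ⟨d1, d2, d3, d4⟩
  have m2 := step2 hVAR hK hc hm2 ⟨d2, d3, d4, d1⟩
  have m3 := step2 hVAR hK hc hm3 ⟨d3, d4, d1, d2⟩
  have m4 := step2 hVAR hK hc hm4 ⟨d4, d1, d2, d3⟩
  set o : P := (1 / 4 : ℝ) • (a + b + c + d) with ho
  set e : P := (1 / 4 : ℝ) • (c - a) with he
  set g : P := (1 / 4 : ℝ) • (d - b) with hg
  have hδ : cr e g = F a b c d / 8 := by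
    simp only [he, hg, F, cr, Prod.fst_sub, Prod.snd_sub, Prod.smul_fst, Prod.smul_snd,
      smul_eq_mul]
    ring
  have hFpos := hfeas.2.1
  have hδ0 : 0 < cr e g := by rw [hδ]; positivity
  have n1 : (1 / 2 : ℝ) • (a + b) = o - e - g := by
    rw [ho, he, hg]
    ext <;> simp only [Prod.fst_sub, Prod.snd_sub, Prod.fst_add, Prod.snd_add, Prod.smul_fst,
      Prod.smul_snd, smul_eq_mul] <;> ring
  have n2 : (1 / 2 : ℝ) • (b + c) = o + e - g := by
    rw [ho, he, hg]
    ext <;> simp only [Prod.fst_sub, Prod.snd_sub, Prod.fst_add, Prod.snd_add, Prod.smul_fst,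
      Prod.smul_snd, smul_eq_mul] <;> ring
  have n3 : (1 / 2 : ℝ) • (c + d) = o + e + g := by
    rw [ho, he, hg]
    ext <;> simp only [Prod.fst_sub, Prod.snd_sub, Prod.fst_add, Prod.snd_add, Prod.smul_fst,
      Prod.smul_snd, smul_eq_mul] <;> ring
  have n4 : (1 / 2 : ℝ) • (d + a) = o - e + g := by
    rw [ho, he, hg]
    ext <;> simp only [Prod.fst_sub, Prod.snd_sub, Prod.fst_add, Prod.snd_add, Prod.smul_fst,
      Prod.smul_snd, smul_eq_mul] <;> ring
  rw [n1] at m1
  rw [n2] at m2
  rw [n3] at m3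
  rw [n4] at m4
  have hK' : Aff o e g ⁻¹' K = G o e g '' K := by
    ext x
    constructor
    · intro hx
      exact ⟨Aff o e g x, hx, G_aff hδ0.ne' x⟩
    · rintro ⟨y, hy, rfl⟩
      show Aff o e g (G o e g y) ∈ K
      rw [aff_G hδ0.ne']
      exact hy
  have hKc : IsCompact (Aff o e g ⁻¹' K) := by
    rw [hK']
    exact hK.image (G_cont o e g)
  have hSq : Sq ⊆ Aff o e g ⁻¹' K := by
    rintro ⟨x, y⟩ ⟨h1, h2, h3, h4⟩
    simp only at h1 h2 h3 h4
    show Aff o e g (x, y) ∈ K
    have p1 := hc m1 m2 (a := (1 - x) / 2) (b := (1 + x) / 2) (by linarith) (by linarith)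
      (by ring)
    have p2 := hc m4 m3 (a := (1 - x) / 2) (b := (1 + x) / 2) (by linarith) (by linarith)
      (by ring)
    have p3 := hc p1 p2 (a := (1 - y) / 2) (b := (1 + y) / 2) (by linarith) (by linarith)
      (by ring)
    have p4 : ((1 - y) / 2) • (((1 - x) / 2) • (o - e - g) + ((1 + x) / 2) • (o + e - g)) +
        ((1 + y) / 2) • (((1 - x) / 2) • (o - e + g) + ((1 + x) / 2) • (o + e + g)) =
        Aff o e g (x, y) := by
      ext <;> simp only [Aff, Prod.fst_sub, Prod.snd_sub, Prod.fst_add, Prod.snd_add,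
        Prod.smul_fst, Prod.smul_snd, smul_eq_mul] <;> ring
    rw [p4] at p3
    exact p3
  have himg : Aff o e g '' (Aff o e g ⁻¹' K) = K :=
    Set.image_preimage_eq K fun y => ⟨G o e g y, aff_G hδ0.ne' y⟩
  have hvol : volume (Aff o e g ⁻¹' K) ≤ ENNReal.ofReal (4 * √2) := by
    have h1 := hAFV o e g hδ0.ne' (Aff o e g ⁻¹' K)
    rw [himg, abs_of_pos hδ0] at h1
    have h2 : volume K = ENNReal.ofReal V := (ENNReal.ofReal_toReal hK.measure_lt_top.ne).symm
    have h3 : V ≤ cr e g * (4 * √2) := by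
      rw [hδ]
      have h4 : √2 * √2 = 2 := Real.mul_self_sqrt (by norm_num)
      nlinarith
    have h4 : ENNReal.ofReal (cr e g) * volume (Aff o e g ⁻¹' K) ≤
        ENNReal.ofReal (cr e g) * ENNReal.ofReal (4 * √2) := by
      rw [← h1, h2, ← ENNReal.ofReal_mul hδ0.le]
      exact ENNReal.ofReal_le_ofReal h3
    exact (ENNReal.mul_le_mul_iff_right (ENNReal.ofReal_pos.mpr hδ0).ne'
      ENNReal.ofReal_ne_top).mp h4
  obtain ⟨a', b', c', d', ⟨⟨q1, q2, q3, q4⟩, q5, q6⟩, hF8⟩ :=
    hNRM (Aff o e g ⁻¹' K) hKc (aff_conv hc o e g) hSq hvol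
  have hfe : Feas K (Aff o e g a') (Aff o e g b') (Aff o e g c') (Aff o e g d') := by
    refine ⟨⟨?_, ?_, ?_, ?_⟩, ?_, ?_⟩
    · rw [D_aff]; exact mul_nonneg hδ0.le q1
    · rw [D_aff]; exact mul_nonneg hδ0.le q2
    · rw [D_aff]; exact mul_nonneg hδ0.le q3
    · rw [D_aff]; exact mul_nonneg hδ0.le q4
    · rw [F_aff]; exact mul_pos hδ0 q5
    · intro y hy
      have h1 : G o e g y ∈ Aff o e g ⁻¹' K := by
        show Aff o e g (G o e g y) ∈ K
        rw [aff_G hδ0.ne']
        exact hy
      have h2 := aff_hull o e g a' b' c' d' (q6 h1)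
      have h3 : Aff o e g (G o e g y) ∈
          hull (Aff o e g a') (Aff o e g b') (Aff o e g c') (Aff o e g d') := h2
      rwa [aff_G hδ0.ne'] at h3
  have hle := hmin _ _ _ _ hfe
  rw [F_aff, hδ] at hle
  nlinarith

end Pool.Agent.N490.QD.STR
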