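import Pool.Agent.Helper484.Crit.FG

/-!
# Minimal circumscribed quadrilaterals of plane convex sets: statements (project QD)
-/

set_option autoImplicit false

namespace Pool.Agent.N490.QD

open MeasureTheory

/-- The plane. -/
abbrev P := ℝ × ℝ

/-- The cross product. -/
def cr (a b : P) : ℝ := a.1 * b.2 - a.2 * b.1

/-- Twice the signed area of the triangle `p q r`; for fixed `p`, `q` this is the (signed) side of
the directed line `p q` on which `r` lies. -/
def D (p q r : P) : ℝ := cr (q - p) (r - p)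

/-- `a b c d` are the vertices, counterclockwise, of a (possibly degenerate) convex
quadrilateral. -/
def Cls (a b c d : P) : Prop := 0 ≤ D a b c ∧ 0 ≤ D b c d ∧ 0 ≤ D c d a ∧ 0 ≤ D d a b

/-- `a b c d` are the vertices, counterclockwise, of a strictly convex quadrilateral. -/
def Str (a b c d : P) : Prop := 0 < D a b c ∧ 0 < D b c d ∧ 0 < D c d a ∧ 0 < D d a b

/-- The area of the quadrilateral `a b c d`. -/
noncomputable def F (a b c d : P) : ℝ := cr (c - a) (d - b) / 2

/-- The quadrilateral with vertices `a b c d`. -/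
def hull (a b c d : P) : Set P := convexHull ℝ {a, b, c, d}

/-- `a b c d` is a quadrilateral circumscribed to `K`. -/
def Feas (K : Set P) (a b c d : P) : Prop := Cls a b c d ∧ 0 < F a b c d ∧ K ⊆ hull a b c d

/-- The square `[-1,1]^2`. -/
def Sq : Set P := {x | -1 ≤ x.1 ∧ x.1 ≤ 1 ∧ -1 ≤ x.2 ∧ x.2 ≤ 1}

/-- The standard triangle. -/
def T0 : Set P := {x | 0 ≤ x.1 ∧ 0 ≤ x.2 ∧ x.1 + x.2 ≤ 1}

/-- The affine map `(x, y) ↦ o + x e + y g`. -/
def Aff (o e g : P) (x : P) : P := o + x.1 • e + x.2 • g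

/-- **HP**: a convex quadrilateral is the intersection of four half planes. -/
def S_HP : Prop := ∀ a b c d : P, Cls a b c d → 0 < F a b c d → ∀ x : P,
  (x ∈ hull a b c d ↔ 0 ≤ D a b x ∧ 0 ≤ D b c x ∧ 0 ≤ D c d x ∧ 0 ≤ D d a x)

/-- **AREA**: the area of a convex quadrilateral. -/
def S_AREA : Prop := ∀ a b c d : P, Cls a b c d → 0 < F a b c d →
  volume (hull a b c d) ≤ ENNReal.ofReal (F a b c d)

/-- **VAR**: if the midpoint of the side `a b` of a strictly convex circumscribed quadrilateral of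
`K` is not in `K`, then the side can be moved so that the area decreases. -/
def S_VAR : Prop := ∀ K : Set P, IsCompact K → Convex ℝ K → ∀ a b c d : P, Str a b c d →
  K ⊆ hull a b c d → ((1 / 2 : ℝ) • (a + b)) ∉ K →
  ∃ a' b' : P, Str a' b' c d ∧ K ⊆ hull a' b' c d ∧ F a' b' c d < F a b c d

/-- **CUT**: if `K` is contained in a triangle, but not equal to it, then a corner can be cut
off. -/
def S_CUT : Prop := ∀ K : Set P, IsClosed K → Convex ℝ K → ∀ p q r : P, 0 < D p q r →
  K ⊆ convexHull ℝ {p, q, r} → ¬ (convexHull ℝ {p, q, r} ⊆ K) →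
  ∃ a b c d : P, Str a b c d ∧ K ⊆ hull a b c d ∧ F a b c d < D p q r / 2

/-- **MIN**: there is a circumscribed quadrilateral of minimal area. -/
def S_MIN : Prop := ∀ K : Set P, IsCompact K → Convex ℝ K → (interior K).Nonempty →
  ∃ a b c d : P, Feas K a b c d ∧ ∀ a' b' c' d' : P, Feas K a' b' c' d' →
    F a b c d ≤ F a' b' c' d'

/-- **CAPS**: the area of a convex set which contains the square and points on the four sides of a
rectangle around it. -/
def S_CAPS : Prop := ∀ K : Set P, Convex ℝ K → Sq ⊆ K → ∀ h1 h2 h3 h4 q1 q2 q3 q4 : ℝ,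
  0 ≤ h1 → 0 ≤ h2 → 0 ≤ h3 → 0 ≤ h4 →
  -1 - h4 ≤ q1 → q1 ≤ 1 + h2 → -1 - h3 ≤ q2 → q2 ≤ 1 + h1 →
  -1 - h4 ≤ q3 → q3 ≤ 1 + h2 → -1 - h3 ≤ q4 → q4 ≤ 1 + h1 →
  (q1, 1 + h1) ∈ K → (1 + h2, q2) ∈ K → (q3, -1 - h3) ∈ K → (-1 - h4, q4) ∈ K →
  ENNReal.ofReal (4 + h1 + h2 + h3 + h4) ≤ volume K

/-- **EQS**: a convex body which is not larger than a closed subset of it equals this subset. -/
def S_EQS : Prop := ∀ K O : Set P, Convex ℝ K → (interior K).Nonempty → IsClosed O → O ⊆ K →
  volume O ≠ ⊤ → volume K ≤ volume O → K ⊆ O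

/-- **NRMT**: the normalized theorem, case of a point above the square. -/
def S_NRMT : Prop := S_HP → S_VAR → S_CAPS → S_EQS →
  ∀ K : Set P, IsCompact K → Convex ℝ K → Sq ⊆ K → volume K ≤ ENNReal.ofReal (4 * √2) →
    (∃ z ∈ K, 1 < z.2) → ∃ a b c d : P, Feas K a b c d ∧ F a b c d < 8

/-- **NRM**: the normalized theorem. -/
def S_NRM : Prop :=
  ∀ K : Set P, IsCompact K → Convex ℝ K → Sq ⊆ K → volume K ≤ ENNReal.ofReal (4 * √2) →
    ∃ a b c d : P, Feas K a b c d ∧ F a b c d < 8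

/-- **STR**: every convex body has a circumscribed quadrilateral whose area is less than `√2`
times that of the body. -/
def S_STR : Prop := ∀ K : Set P, IsCompact K → Convex ℝ K → (interior K).Nonempty →
  ∃ a b c d : P, Feas K a b c d ∧ F a b c d < √2 * (volume K).toReal

/-- **TRN**: an inscribed triangle of maximal area. -/
def S_TRN : Prop := ∀ K : Set P, IsCompact K → (interior K).Nonempty →
  ∃ p q r : P, p ∈ K ∧ q ∈ K ∧ r ∈ K ∧ 0 < D p q r ∧
    ∀ x ∈ K, |D p q x| ≤ D p q r ∧ |D q r x| ≤ D p q r ∧ |D r p x| ≤ D p q r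

/-- **CMP**: compactness: one constant for all convex bodies between the standard triangle and the
square. -/
def S_CMP : Prop := S_STR → ∃ c : ℝ, 0 < c ∧ c < √2 ∧ ∀ K : Set P, IsCompact K → Convex ℝ K →
  T0 ⊆ K → K ⊆ Sq → ∃ a b c' d : P, Feas K a b c' d ∧ F a b c' d ≤ c * (volume K).toReal

/-- **BDD**: a convex set of area one is bounded and its closure has area one. -/
def S_BDD : Prop := ∀ K : Set P, Convex ℝ K → volume K = 1 →
  IsCompact (closure K) ∧ (interior (closure K)).Nonempty ∧ volume (closure K) = 1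

/-- Affine maps and areas. -/
def S_AFV : Prop := ∀ o e g : P, cr e g ≠ 0 → ∀ S : Set P,
  volume (Aff o e g '' S) = ENNReal.ofReal |cr e g| * volume S

/-- **MAIN**. -/
def S_MAIN : Prop := ∃ c : ℝ, c < √2 ∧ ∀ K : Set P, Convex ℝ K → volume K = 1 →
  ∃ a b c' d : P, Cls a b c' d ∧ K ⊆ hull a b c' d ∧ volume (hull a b c' d) ≤ ENNReal.ofReal c

end Pool.Agent.N490.QD
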