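import Pool.Agent.N490.QD.Stm

/-! An inscribed triangle of maximal area (project QD, leaf TRN, helper793). -/

set_option autoImplicit false

namespace Pool.Agent.N490.QD.TRN

open MeasureTheory

theorem swap (p q x : P) : D p q x = -D q p x := by
  simp only [D, cr, Prod.fst_sub, Prod.snd_sub]
  ring

theorem rot (p q r : P) : D q r p = D p q r := by
  simp only [D, cr, Prod.fst_sub, Prod.snd_sub]
  ring

theorem t_TRN : S_TRN := by
  intro K hK hint
  obtain ⟨x0, hx0⟩ := hint
  have hne : (K ×ˢ (K ×ˢ K)).Nonempty := ⟨(x0, x0, x0), interior_subset hx0, interior_subset hx0, interior_subset hx0⟩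
  have hc : Continuous (fun t : P × P × P => D t.1 t.2.1 t.2.2) := by
    unfold D cr
    simp only [Prod.fst_sub, Prod.snd_sub]
    fun_prop
  obtain ⟨⟨p, q, r⟩, ⟨hp, hq, hr⟩, hmax⟩ := (hK.prod (hK.prod hK)).exists_isMaxOn hne hc.continuousOn
  have hmax' : ∀ a b c : P, a ∈ K → b ∈ K → c ∈ K → D a b c ≤ D p q r := fun a b c ha hb hc =>
    hmax (show (a, b, c) ∈ K ×ˢ (K ×ˢ K) from ⟨ha, hb, hc⟩)
  have habs : ∀ a b : P, a ∈ K → b ∈ K → ∀ x ∈ K, |D a b x| ≤ D p q r := by
    intro a b ha hb x hx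
    rw [abs_le]
    have h1 := hmax' b a x hb ha hx
    have h2 := hmax' a b x ha hb hx
    rw [swap a b x]
    rw [swap a b x] at h2
    constructor <;> linarith
  refine ⟨p, q, r, hp, hq, hr, ?_, fun x hx => ⟨habs p q hp hq x hx, habs q r hq hr x hx, habs r p hr hp x hx⟩⟩
  -- positivity
  obtain ⟨ε, hε, hball⟩ := Metric.isOpen_iff.1 isOpen_interior x0 hx0
  have h1 : x0 + (ε / 2, 0) ∈ K := by
    apply interior_subset
    apply hball
    rw [Metric.mem_ball, dist_self_add_left, Prod.norm_mk, norm_zero, Real.norm_of_nonneg (by linarith)]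
    rw [max_eq_left (by linarith)]
    linarith
  have h2 : x0 + (0, ε / 2) ∈ K := by
    apply interior_subset
    apply hball
    rw [Metric.mem_ball, dist_self_add_left, Prod.norm_mk, norm_zero, Real.norm_of_nonneg (by linarith)]
    rw [max_eq_right (by linarith)]
    linarith
  have h3 := hmax' _ _ _ (interior_subset hx0) h1 h2
  have h4 : D x0 (x0 + (ε / 2, 0)) (x0 + (0, ε / 2)) = (ε / 2) ^ 2 := by
    simp only [D, cr, Prod.fst_sub, Prod.snd_sub, Prod.fst_add, Prod.snd_add]
    ring
  rw [h4] at h3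
  have : 0 < (ε / 2) ^ 2 := by positivity
  linarith

end Pool.Agent.N490.QD.TRN
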