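import Pool.Agent.N490.QD.Stm

/-!
# QD/VAR: moving a side of a circumscribed quadrilateral (helper933)
-/

set_option autoImplicit false

namespace Pool.Agent.N490.QD.VAR

open MeasureTheory Filter Topology

theorem D_cyc (p q r : P) : D p q r = D r p q := by
  simp only [D, cr, Prod.fst_sub, Prod.snd_sub]; ring

theorem D_one (b c x : P) (s : ℝ) : D (b + s • (c - b)) c x = (1 - s) * D b c x := by
  simp only [D, cr, Prod.fst_sub, Prod.snd_sub, Prod.fst_add, Prod.snd_add, Prod.smul_fst,
    Prod.smul_snd, smul_eq_mul]; ring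

theorem D_two (d a x : P) (s : ℝ) : D d (a + s • (d - a)) x = (1 - s) * D d a x := by
  simp only [D, cr, Prod.fst_sub, Prod.snd_sub, Prod.fst_add, Prod.snd_add, Prod.smul_fst,
    Prod.smul_snd, smul_eq_mul]; ring

theorem D_three (c d a : P) (s : ℝ) : D c d (a + s • (d - a)) = (1 - s) * D c d a := by
  simp only [D, cr, Prod.fst_sub, Prod.snd_sub, Prod.fst_add, Prod.snd_add, Prod.smul_fst,
    Prod.smul_snd, smul_eq_mul]; ring

theorem D_four (a b c d : P) (s r : ℝ) : D d (a + s • (d - a)) (b + r • (c - b)) =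
    (1 - s) * ((1 - r) * D d a b + r * D c d a) := by
  simp only [D, cr, Prod.fst_sub, Prod.snd_sub, Prod.fst_add, Prod.snd_add, Prod.smul_fst,
    Prod.smul_snd, smul_eq_mul]; ring

theorem D_five (a b c d : P) (s r : ℝ) : D (a + s • (d - a)) (b + r • (c - b)) c =
    (1 - r) * ((1 - s) * D a b c + s * D b c d) := by
  simp only [D, cr, Prod.fst_sub, Prod.snd_sub, Prod.fst_add, Prod.snd_add, Prod.smul_fst,
    Prod.smul_snd, smul_eq_mul]; ring

theorem F_new (a b c d : P) (s r : ℝ) : F (a + s • (d - a)) (b + r • (c - b)) c d =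
    F a b c d - (r * D a b c + s * D d a b - s * r * cr (d - a) (c - b)) / 2 := by
  simp only [F, D, cr, Prod.fst_sub, Prod.snd_sub, Prod.fst_add, Prod.snd_add, Prod.smul_fst,
    Prod.smul_snd, smul_eq_mul]; ring

/-- the affine function -/
def L (p q φ t : ℝ) (a b x : P) : ℝ := t * (p * x.1 + q * x.2 - φ) - D a b x

theorem L_key (p q φ t : ℝ) (a b a' b' x d : P) (h1 : L p q φ t a b a' = 0)
    (h2 : L p q φ t a b b' = 0) :
    D a' b' x * L p q φ t a b d = L p q φ t a b x * D a' b' d := by
  have key : D a' b' x * L p q φ t a b d - L p q φ t a b x * D a' b' d =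
      L p q φ t a b a' * D b' x d - L p q φ t a b b' * D a' x d := by
    simp only [L, D, cr, Prod.fst_sub, Prod.snd_sub]; ring
  rw [h1, h2] at key
  linarith

theorem L_a (p q φ t : ℝ) (a b d : P) (s : ℝ) : L p q φ t a b (a + s • (d - a)) =
    (1 - s) * (t * (p * a.1 + q * a.2 - φ)) + s * (t * (p * d.1 + q * d.2 - φ) - D d a b) := by
  simp only [L, D, cr, Prod.fst_sub, Prod.snd_sub, Prod.fst_add, Prod.snd_add, Prod.smul_fst,
    Prod.smul_snd, smul_eq_mul]; ring

theorem L_b (p q φ t : ℝ) (a b c : P) (s : ℝ) : L p q φ t a b (b + s • (c - b)) =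
    (1 - s) * (t * (p * b.1 + q * b.2 - φ)) + s * (t * (p * c.1 + q * c.2 - φ) - D a b c) := by
  simp only [L, D, cr, Prod.fst_sub, Prod.snd_sub, Prod.fst_add, Prod.snd_add, Prod.smul_fst,
    Prod.smul_snd, smul_eq_mul]; ring

/-- a strictly convex quadrilateral has positive area -/
theorem F_pos {a b c d : P} (h : Str a b c d) : 0 < F a b c d := by
  have e : 2 * F a b c d = D a b c + D c d a := by
    simp only [F, D, cr, Prod.fst_sub, Prod.snd_sub]; ring
  have := h.1
  have := h.2.2.1
  linarith

theorem t_VAR (hHP : S_HP) : S_VAR := by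
  intro K hKc hKv a b c d hS hK hm
  obtain ⟨f, φ, hf1, hf2⟩ := geometric_hahn_banach_closed_point hKv hKc.isClosed hm
  set p : ℝ := f (1, 0) with hp
  set q : ℝ := f (0, 1) with hq
  have hfx : ∀ x : P, f x = p * x.1 + q * x.2 := by
    intro x
    have : x = x.1 • ((1 : ℝ), (0 : ℝ)) + x.2 • ((0 : ℝ), (1 : ℝ)) := by
      ext <;> simp
    conv_lhs => rw [this]
    rw [map_add, map_smul, map_smul, smul_eq_mul, smul_eq_mul]
    ring
  obtain ⟨s1, s2, s3, s4⟩ := hS
  have hCls : Cls a b c d := ⟨s1.le, s2.le, s3.le, s4.le⟩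
  have hF0 : 0 < F a b c d := F_pos ⟨s1, s2, s3, s4⟩
  set A : ℝ := p * a.1 + q * a.2 - φ with hA
  set B : ℝ := p * b.1 + q * b.2 - φ with hB
  set C : ℝ := p * c.1 + q * c.2 - φ with hC
  set E : ℝ := p * d.1 + q * d.2 - φ with hE
  have hAB : 0 < A + B := by
    rw [hfx] at hf2
    simp only [Prod.smul_fst, Prod.smul_snd, Prod.fst_add, Prod.snd_add, smul_eq_mul] at hf2
    rw [hA, hB]
    nlinarith
  -- the functions
  let al : ℝ → ℝ := fun t => A / (D d a b + t * (A - E))
  let be : ℝ → ℝ := fun t => B / (D a b c + t * (B - C))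
  have hal : ContinuousAt al 0 := by
    apply ContinuousAt.div (by fun_prop) (by fun_prop)
    simp only [zero_mul, add_zero]
    exact s4.ne'
  have hbe : ContinuousAt be 0 := by
    apply ContinuousAt.div (by fun_prop) (by fun_prop)
    simp only [zero_mul, add_zero]
    exact s1.ne'
  have al0 : al 0 * D d a b = A := by
    simp only [al, zero_mul, add_zero]
    field_simp
  have be0 : be 0 * D a b c = B := by
    simp only [be, zero_mul, add_zero]
    field_simp
  have ev : ∀ g : ℝ → ℝ, ContinuousAt g 0 → 0 < g 0 → ∀ᶠ t in 𝓝 (0 : ℝ), 0 < g t := by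
    intro g hg h0
    exact hg.tendsto.eventually_const_lt h0
  have E1 := ev (fun t => al t * D d a b + be t * D a b c - t * al t * be t * cr (d - a) (c - b))
    (by fun_prop) (by simp only [al0, be0, zero_mul, sub_zero]; exact hAB)
  have E2 := ev (fun t => 1 - t * al t) (by fun_prop) (by simp)
  have E3 := ev (fun t => 1 - t * be t) (by fun_prop) (by simp)
  have E4 := ev (fun t => D d a b + t * (A - E)) (by fun_prop) (by simpa using s4)
  have E5 := ev (fun t => D a b c + t * (B - C)) (by fun_prop) (by simpa using s1)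
  have E6 := ev (fun t => D d a b - t * E) (by fun_prop) (by simpa using s4)
  have E7 := ev (fun t => (1 - t * be t) * D d a b + t * be t * D c d a) (by fun_prop)
    (by simpa using s4)
  have E8 := ev (fun t => (1 - t * al t) * D a b c + t * al t * D b c d) (by fun_prop)
    (by simpa using s1)
  have hall := (E1.and (E2.and (E3.and (E4.and (E5.and (E6.and (E7.and E8)))))))
  obtain ⟨t, ⟨g1, g2, g3, g4, g5, g6, g7, g8⟩, ht⟩ :=
    ((hall.filter_mono nhdsWithin_le_nhds).and (self_mem_nhdsWithin : Set.Ioi (0 : ℝ) ∈ 𝓝[>] (0 : ℝ))).exists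
  have ht0 : 0 < t := ht
  set s : ℝ := t * al t with hs
  set r : ℝ := t * be t with hr
  have hsE : s * (D d a b + t * (A - E)) = t * A := by
    rw [hs]
    simp only [al]
    field_simp
  have hrE : r * (D a b c + t * (B - C)) = t * B := by
    rw [hr]
    simp only [be]
    field_simp
  set a' : P := a + s • (d - a) with ha'
  set b' : P := b + r • (c - b) with hb'
  have q1 : 0 < D a' b' c := by
    rw [ha', hb', D_five]
    exact mul_pos g3 g8
  have q2 : 0 < D b' c d := by
    rw [hb', D_one]
    exact mul_pos g3 s2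
  have q3 : 0 < D c d a' := by
    rw [ha', D_three]
    exact mul_pos g2 s3
  have q4 : 0 < D d a' b' := by
    rw [ha', hb', D_four]
    exact mul_pos g2 g7
  have hS' : Str a' b' c d := ⟨q1, q2, q3, q4⟩
  refine ⟨a', b', hS', ?_, ?_⟩
  · intro x hx
    have hx0 := (hHP a b c d hCls hF0 x).1 (hK hx)
    refine (hHP a' b' c d ⟨q1.le, q2.le, q3.le, q4.le⟩ (F_pos hS') x).2 ⟨?_, ?_, hx0.2.2.1, ?_⟩
    · have La : L p q φ t a b a' = 0 := by
        rw [ha', L_a]
        linear_combination -hsE
      have Lb : L p q φ t a b b' = 0 := by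
        rw [hb', L_b]
        linear_combination -hrE
      have hkey := L_key p q φ t a b a' b' x d La Lb
      have Ld : L p q φ t a b d < 0 := by
        unfold L
        have := D_cyc a b d
        rw [this]
        linarith
      have Lx : L p q φ t a b x ≤ 0 := by
        unfold L
        have h1 := hf1 x hx
        rw [hfx] at h1
        have h2 := hx0.1
        have h3 : t * (p * x.1 + q * x.2 - φ) ≤ 0 :=
          mul_nonpos_of_nonneg_of_nonpos ht0.le (by linarith)
        linarith
      have hD : 0 < D a' b' d := by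
        rw [D_cyc]; exact q4
      by_contra hneg
      push Not at hneg
      have h4 : 0 < D a' b' x * L p q φ t a b d := mul_pos_of_neg_of_neg hneg Ld
      have h5 : L p q φ t a b x * D a' b' d ≤ 0 := mul_nonpos_of_nonpos_of_nonneg Lx hD.le
      linarith
    · rw [hb', D_one]
      exact mul_nonneg g3.le hx0.2.1
    · rw [ha', D_two]
      exact mul_nonneg g2.le hx0.2.2.2
  · rw [ha', hb', F_new]
    have h1 : r * D a b c + s * D d a b - s * r * cr (d - a) (c - b) =
        t * (al t * D d a b + be t * D a b c - t * al t * be t * cr (d - a) (c - b)) := by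
      rw [hs, hr]; ring
    rw [h1]
    have h2 := mul_pos ht0 g1
    linarith

end Pool.Agent.N490.QD.VAR
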